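import Pool.Agent.MP_c69980_ag.I4B.Base

/-!
Resolution of the points of indeterminacy of a unit, by induction on the weights.
-/

set_option autoImplicit false

noncomputable section

namespace Pool.Agent.MP_c69980_ag.I4B

open MvPolynomial Set
open H60 H4 E1 I4

namespace BUX

variable {K : Type} [Field K] [Algebra ℂ K]

lemma d1 {O : Subalgebra ℂ K} {u ε p : K} (hε : Ut O ε) (hp : p ∈ O) (e : u * p = ε) :
    u⁻¹ ∈ O := by
  have h0 : p ≠ 0 := fun q => hε.1 (by rw [← e, q, mul_zero])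
  rw [eq_div_of_mul_eq h0 e, inv_div, div_eq_mul_inv]
  exact mul_mem hp hε.2.2

/-- The first chart. -/
lemma c1 {O : Subalgebra ℂ K} [IsLocalRing O] {u ε s t : K} {a b : ℕ} {c : ℂ} (hε : Ut O ε)
    (e : u * t ^ b = ε * s ^ a) (hp : Par O s (t / s - algebraMap ℂ K c)) (h1 : u ∉ O)
    (h2 : u⁻¹ ∉ O) : b < a ∧ Par O s (t / s) ∧ u * (t / s) ^ b = ε * s ^ (a - b) := by
  have s0 := hp.2.2.1
  have hT : t / s ∈ O := by simpa using add_mem hp.2.1 (O.algebraMap_mem c)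
  have ba : b < a := not_le.1 fun q => h2 (d1 hε (mul_mem (pow_mem hT b) (pow_mem hp.1 (b - a)))
    (mul_right_cancel₀ (pow_ne_zero a s0) (by
      rw [← e, mul_assoc, mul_assoc, ← pow_add, Nat.sub_add_cancel q, ← mul_pow,
        div_mul_cancel₀ _ s0])))
  have e' : u * (t / s) ^ b = ε * s ^ (a - b) := mul_right_cancel₀ (pow_ne_zero b s0) (by
    rw [mul_assoc, ← mul_pow, div_mul_cancel₀ _ s0, mul_assoc, ← pow_add,
      Nat.sub_add_cancel ba.le, e])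
  have nu : ¬ Ut O (t / s) := fun q => h1 (by
    rw [eq_div_of_mul_eq (q.pow b).1 e', div_eq_mul_inv]
    exact mul_mem (mul_mem hε.2.1 (pow_mem hp.1 _)) (q.pow b).2.2)
  obtain rfl : c = 0 := by
    by_contra c0
    have hc : IsUnit ((⟨_, hT⟩ : O) + -⟨_, hp.2.1⟩) := (ut_iff _).2 (by
      rw [show (((⟨_, hT⟩ : O) + -⟨_, hp.2.1⟩ : O) : K) = algebraMap ℂ K c by simp]
      exact ⟨by simpa, O.algebraMap_mem c, by rw [← map_inv₀]; exact O.algebraMap_mem _⟩)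
    exact (IsLocalRing.isUnit_or_isUnit_of_isUnit_add hc).elim (fun q => nu ((ut_iff _).1 q))
      fun q => hp.2.2.2.2.2.1 ((ut_iff _).1 ((IsUnit.neg_iff _).1 q)).2.2
  exact ⟨ba, by simpa using hp, e'⟩

/-- The second chart. -/
lemma c2 {O : Subalgebra ℂ K} {u ε s t : K} {a b : ℕ} (hε : Ut O ε)
    (e : u * t ^ b = ε * s ^ a) (hp : Par O t (s / t)) (h1 : u ∉ O) :
    a < b ∧ u * t ^ (b - a) = ε * (s / t) ^ a := by
  have t0 := hp.2.2.1
  have ab : a < b := not_le.1 fun q => h1 (by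
    rw [show u = ε * (s / t) ^ a * t ^ (a - b) from mul_right_cancel₀ (pow_ne_zero b t0) (by
      rw [e, mul_assoc, ← pow_add, Nat.sub_add_cancel q, mul_assoc, ← mul_pow,
        div_mul_cancel₀ _ t0])]
    exact mul_mem (mul_mem hε.2.1 (pow_mem hp.2.1 _)) (pow_mem hp.1 _))
  exact ⟨ab, mul_right_cancel₀ (pow_ne_zero a t0) (by
    rw [mul_assoc, ← pow_add, Nat.sub_add_cancel ab.le, e, mul_assoc, ← mul_pow,
      div_mul_cancel₀ _ t0])⟩

lemma ind (hB : BlStmt) (hT : TrStmt) {n : ℕ} {U : Set (PS n)} {z : Fin n → K} {m : ℕ}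
    {E : Fin 2 → Derivation ℂ K K} {h : Fin 3 → K} {u : K} {ι : Type} [Fintype ι] (N : ℕ) :
    ∀ (n' : ℕ) (W : Set (PS n')) (z' : Fin n' → K) (π : PS n' → PS n) (p : ι → PS n')
      (w : ι → ℕ), LDat U z W z' π m E h → ∑ i, w i = N →
      (∀ x ∈ W, ¬ Det z' u x → ∃ i, x = p i ∧ Bad U W z' π m E h u x (w i)) →
      ∃ (n'' : ℕ) (W' : Set (PS n'')) (z'' : Fin n'' → K) (π' : PS n'' → PS n),
        LDat U z W' z'' π' m E h ∧ ∀ x ∈ W', Det z'' u x := by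
  classical
  induction N using Nat.strong_induction_on with
  | _ N ih =>
  intro n' W z' π p w ld hN hb
  by_cases q : ∀ x ∈ W, Det z' u x
  · exact ⟨_, W, z', π, ld, q⟩
  obtain ⟨x, hx, nd⟩ : ∃ x ∈ W, ¬ Det z' u x := by simpa using q
  obtain ⟨i0, rfl, t, sn, a, b, ε, hε, hw, e⟩ := hb x hx nd
  have a0 : a ≠ 0 := fun r => nd (Or.inr (d1 hε (pow_mem sn.1.2.1 b) (by simpa [r] using e)))
  have b0 : b ≠ 0 := fun r => nd (Or.inl (by
    rw [show u = ε * t 0 ^ a by simpa [r] using e]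
    exact mul_mem hε.2.1 (pow_mem sn.1.1 a)))
  obtain ⟨n'', W', z'', ρ, md, ex⟩ := hB n' W K z' _ _ _ ld.1 ld.2.1 (rg2 ld) hx sn.1
  obtain ⟨ld', t1, t2⟩ := hT n n' n'' U W W' K z z' z'' π ρ m E h _ t ld hx sn md ex
  have le : ∀ y ∈ W', locRing z' (ρ y) ≤ locRing z'' y := fun y hy v hv =>
    (loc_iff (on_rep md.gen (sub_zcl hy)) v).2 ((md.dm y hy).2 v
      ((loc_iff (on_rep ld.2.1 (sub_zcl (md.dm y hy).1)) v).1 hv)).1
  have ov : ∀ y ∈ W', ρ y = p i0 → ¬ Det z'' u y →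
      (b < a ∧ Par (locRing z'' y) (t 0) (t 1 / t 0) ∨
        a < b ∧ Par (locRing z'' y) (t 1) (t 0 / t 1)) ∧
      Bad U W' z'' (π ∘ ρ) m E h u y (w i0 - 1) := fun y hy r nd' => by
    have := (rg2 ld' y hy).1
    have hε' : Ut (locRing z'' y) ε := (r ▸ hε :).mono (le y hy)
    rcases ex.on y hy r with ⟨c, k⟩ | k
    · obtain ⟨k1, k2, k3⟩ := c1 hε' e k (fun j => nd' (Or.inl j)) fun j => nd' (Or.inr j)
      exact ⟨Or.inl ⟨k1, k2⟩, _, (t2 y hy r).1 k2, a - b, b, ε, hε', by omega, k3⟩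
    · obtain ⟨k1, k3⟩ := c2 hε' e k fun j => nd' (Or.inl j)
      exact ⟨Or.inr ⟨k1, k⟩, _, (t2 y hy r).2 k, a, b - a, ε, hε', by omega, k3⟩
  have un : ∀ y ∈ W', ∀ y' ∈ W', ¬ Det z'' u y → ¬ Det z'' u y' → ρ y = ρ y' → y = y' :=
    fun y hy y' hy' k k' r => by
      by_cases s : ρ y = p i0
      · rcases (ov y hy s k).1 with j | j <;> rcases (ov y' hy' (r ▸ s) k').1 with j' | j'
        · exact ex.u1 y hy y' hy' s (r ▸ s) j.2 j'.2
        · omega
        · omega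
        · exact ex.u2 y hy y' hy' s (r ▸ s) j.2 j'.2
      · exact md.inj y hy y' hy' s r
  obtain ⟨y0, -⟩ := gen_ne md.gen
  have ch : ∀ i, ∃ y, ∀ y' ∈ W', ¬ Det z'' u y' → ρ y' = p i → y' = y := fun i => by
    by_cases s : ∃ y ∈ W', ¬ Det z'' u y ∧ ρ y = p i
    · obtain ⟨y, s1, s2, s3⟩ := s
      exact ⟨y, fun y' k1 k2 k3 => un y' k1 y s1 k2 s2 (k3.trans s3.symm)⟩
    · exact ⟨y0, fun y' k1 k2 k3 => (s ⟨y', k1, k2, k3⟩).elim⟩
  choose p' hp' using ch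
  have lt : ∑ i, Function.update w i0 (w i0 - 1) i < N := by
    refine hN ▸ Finset.sum_lt_sum (fun i _ => ?_) ⟨i0, Finset.mem_univ _, ?_⟩
    · rw [Function.update_apply]
      split_ifs with r
      · subst r
        omega
      · rfl
    · rw [Function.update_self]
      omega
  refine ih _ lt n'' W' z'' (π ∘ ρ) p' _ ld' rfl fun y hy k => ?_
  by_cases s : ρ y = p i0
  · exact ⟨i0, hp' i0 y hy k s, by rw [Function.update_self]; exact (ov y hy s k).2⟩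
  obtain ⟨i, r, t', sn', a', b', ε', k1, k2, k3⟩ := hb _ (md.dm y hy).1 fun j =>
    k (j.imp (fun l => le y hy l) fun l => le y hy l)
  refine ⟨i, hp' i y hy k r, t', t1 y hy s _ _ sn', a', b', ε', k1.mono (le y hy), ?_, k3⟩
  rwa [Function.update_of_ne fun j : i = i0 => s (r.trans (congrArg p j))]

end BUX

theorem bu (hB : BlStmt) (hF : FinStmt) (hT : TrStmt) : BUStmt := by
  intro n n' U W K _ _ z z' π m E h u ld hu
  obtain ⟨f1, f2⟩ := hF n n' U W K z z' π m E h u ld hu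
  obtain ⟨k, p, hp⟩ := f1.fin_param
  have : ∀ x, ∃ w, x ∈ W → ¬ Det z' u x → Bad U W z' π m E h u x w := fun x => by
    by_cases q : x ∈ W ∧ ¬ Det z' u x
    · exact ((f2 x q.1).resolve_left q.2).imp fun _ r _ _ => r
    · exact ⟨0, fun a b => (q ⟨a, b⟩).elim⟩
  choose w hw using this
  refine BUX.ind hB hT _ n' W z' π p (fun i => w (p i)) ld rfl fun x hx j => ?_
  obtain ⟨i, rfl⟩ : x ∈ range p := hp.2 ▸ ⟨hx, j⟩
  exact ⟨i, rfl, hw _ hx j⟩

end Pool.Agent.MP_c69980_ag.I4B
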