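import Pool.Agent.MP_c69980_ag.I4B.Spec

/-!
Parameters of local rings and the local data of a model.
-/

set_option autoImplicit false

noncomputable section

namespace Pool.Agent.MP_c69980_ag.I4B

open MvPolynomial Set
open H60 H4 E1 I4

variable {K : Type} [Field K] [Algebra ℂ K] {n n' : ℕ} {O : Subalgebra ℂ K} {s t f g : K}

lemma ut_iff (u : O) : IsUnit u ↔ Ut O u := by
  refine ⟨fun h => ?_, fun h => IsUnit.of_mul_eq_one ⟨_, h.2.2⟩ (Subtype.ext (mul_inv_cancel₀ h.1))⟩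
  obtain ⟨v, hv⟩ := h.exists_right_inv
  have h1 : (u : K) * v = 1 := congrArg Subtype.val hv
  exact ⟨left_ne_zero_of_mul_eq_one h1, u.2, eq_inv_of_mul_eq_one_right h1 ▸ v.2⟩

lemma Ut.mul (h : Ut O f) (h' : Ut O g) : Ut O (f * g) :=
  ⟨mul_ne_zero h.1 h'.1, mul_mem h.2.1 h'.2.1, by rw [mul_inv]; exact mul_mem h.2.2 h'.2.2⟩

lemma Ut.inv (h : Ut O f) : Ut O f⁻¹ := ⟨inv_ne_zero h.1, h.2.2, by rw [inv_inv]; exact h.2.1⟩

lemma Ut.pow (h : Ut O f) (k : ℕ) : Ut O (f ^ k) :=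
  ⟨pow_ne_zero _ h.1, pow_mem h.2.1 k, by rw [← inv_pow]; exact pow_mem h.2.2 k⟩

lemma Ut.mono {O' : Subalgebra ℂ K} (h : Ut O f) (e : O ≤ O') : Ut O' f :=
  ⟨h.1, e h.2.1, e h.2.2⟩

lemma inv_mul_iff (hf : f ∈ O) (hg : g ∈ O) (f0 : f ≠ 0) (g0 : g ≠ 0) :
    (f * g)⁻¹ ∈ O ↔ f⁻¹ ∈ O ∧ g⁻¹ ∈ O := by
  refine ⟨fun h => ⟨?_, ?_⟩, fun h => by rw [mul_inv]; exact mul_mem h.1 h.2⟩
  · have := mul_mem h hg
    rwa [mul_inv, inv_mul_cancel_right₀ g0] at this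
  · have := mul_mem hf h
    rwa [mul_inv, mul_inv_cancel_left₀ f0] at this

lemma Par.symm (h : Par O s t) : Par O t s := by
  obtain ⟨a1, a2, a3, a4, a5, a6, a7⟩ := h
  exact ⟨a2, a1, a4, a3, a6, a5, fun f hf => (a7 f hf).imp_right
    fun ⟨a, ha, b, hb, e⟩ => ⟨b, hb, a, ha, e.trans (add_comm _ _)⟩⟩

lemma par_iff [IsLocalRing O] (t : Fin 2 → O) : Par O (t 0) (t 1) ↔
    (Ideal.span (range t)).IsMaximal ∧ ∀ i, t i ≠ 0 := by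
  have e : range t = {t 0, t 1} := by
    ext x
    simp [Fin.exists_fin_two, eq_comm]
  have nu : ∀ i, (t i : K) ≠ 0 → (t i ∈ IsLocalRing.maximalIdeal O ↔ (t i : K)⁻¹ ∉ O) :=
    fun i h => by
      rw [IsLocalRing.mem_maximalIdeal, mem_nonunits_iff, ut_iff]
      exact ⟨fun a b => a ⟨h, (t i).2, b⟩, fun a b => a b.2.2⟩
  refine ⟨fun ⟨_, _, a3, a4, a5, a6, a7⟩ => ⟨?_, Fin.forall_fin_two.2
    ⟨fun q => a3 (congrArg _ q), fun q => a4 (congrArg _ q)⟩⟩, fun ⟨a, b⟩ => ?_⟩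
  · rw [show Ideal.span (range t) = IsLocalRing.maximalIdeal O from le_antisymm
      (Ideal.span_le.2 (range_subset_iff.2 (Fin.forall_fin_two.2
        ⟨(nu 0 a3).2 a5, (nu 1 a4).2 a6⟩))) fun f hf => ?_]
    · infer_instance
    obtain ⟨a, ha, b, hb, q⟩ := (a7 f f.2).resolve_left fun q => hf ((ut_iff f).2 q)
    rw [e, Ideal.mem_span_pair]
    exact ⟨⟨a, ha⟩, ⟨b, hb⟩, Subtype.ext q.symm⟩
  · have m := IsLocalRing.eq_maximalIdeal a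
    have t0 := fun i (q : (t i : K) = 0) => b i (Subtype.ext q)
    have tm := fun i => (nu i (t0 i)).1 (m ▸ Ideal.subset_span ⟨i, rfl⟩)
    refine ⟨(t 0).2, (t 1).2, t0 0, t0 1, tm 0, tm 1, fun f hf => or_iff_not_imp_left.2 fun q => ?_⟩
    have : (⟨f, hf⟩ : O) ∈ Ideal.span (range t) := m ▸ fun q' => q ((ut_iff _).1 q')
    rw [e, Ideal.mem_span_pair] at this
    obtain ⟨a, b, q⟩ := this
    exact ⟨a, a.2, b, b.2, (congrArg Subtype.val q).symm⟩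

variable {U : Set (PS n)} {W : Set (PS n')} {z : Fin n → K} {z' : Fin n' → K} {π : PS n' → PS n}
  {m : ℕ} {E : Fin 2 → Derivation ℂ K K} {h : Fin 3 → K}

lemma ut_loc {x : PS n} (hx : On z x.rep) : Ut (locRing z x) f ↔ Un z x.rep f :=
  ⟨fun q => ⟨(loc_iff hx _).1 q.2.1, (unit_iff hx ⟨f, q.2.1⟩).1 ((ut_iff _).2 q)⟩,
    fun q => (ut_iff ⟨f, (loc_iff hx _).2 q.1⟩).1 ((unit_iff hx _).2 q.2)⟩

lemma sn_of (ld : LDat U z W z' π m E h) {x : PS n'} (hx : x ∈ W) :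
    ∃ t r, Sn U W z' π m E h x t r := by
  obtain ⟨_, -, -, t, r, g, d, b1, b2, b3, b4, b5, b6⟩ := ld.2.2.2.2.2.2.2 x hx
  exact ⟨fun i => t i, r, (par_iff t).2 ⟨b1, b2⟩, ⟨g, d, b3, b4, b5⟩, b6⟩

lemma ld_of (h1 : IsZClosed W) (h2 : GenPt W z') (h3 : Algebra.trdeg ℂ K = (2 : ℕ))
    (h4 : LinearIndependent K E) (h5 : 0 < m) (h6 : h 0 ≠ 0)
    (h7 : AlgebraicIndependent ℂ fun i : Fin 2 => h i.succ / h 0)
    (h8 : ∀ x ∈ W, IsRegularLocalRing (locRing z' x) ∧ π x ∈ zcl U ∧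
      (∀ u ∈ locRing z (π x), u ∈ locRing z' x ∧ (u⁻¹ ∈ locRing z' x → u⁻¹ ∈ locRing z (π x))) ∧
      ∃ t r, Sn U W z' π m E h x t r) : LDat U z W z' π m E h := by
  refine ⟨h1, h2, h3, h4, h5, h6, h7, fun x hx => ?_⟩
  obtain ⟨a1, a2, a3, t, r, b1, ⟨g, d, b2, b3, b4⟩, b5⟩ := h8 x hx
  have b := (par_iff fun i => ⟨t i, (b4 x hx b3).1 i⟩).1 b1
  exact ⟨a1, a2, a3, _, r, g, d, b.1, b.2, b2, b3, b4, b5⟩

end Pool.Agent.MP_c69980_ag.I4B
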