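import Pool.Agent.MP_c69980_ag.I4B.Base
import Pool.Agent.MP_c69980_ag.I4.Gen

/-!
The blow-up of a point is a modification.
-/

set_option autoImplicit false

noncomputable section

namespace Pool.Agent.MP_c69980_ag.I4B

open MvPolynomial Set
open H60 H4 E1 I4

namespace BlAX

variable {K : Type} [Field K] [Algebra ℂ K] {n d : ℕ} {x p : V n} {j : Fin n} {z : Fin n → K}
  {y : V (n * n)} {F : PR n} {u : K}

/-- The quadratic forms of the rational map to the blow-up. -/
def S (x : V n) (j : Fin n) (k : Fin (n * n)) : PR n :=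
  X (finProdFinEquiv.symm k).1 * lf x j (finProdFinEquiv.symm k).2

/-- The rational map. -/
def Sg (x : V n) (j : Fin n) (p : V n) : V (n * n) := fun k => eval p (S x j k)

/-- A column. -/
def col (y : V (n * n)) (c : Fin n) : V n := fun a => y (finProdFinEquiv (a, c))

/-- A form in the variables of a column. -/
def R (c : Fin n) (F : PR n) : PR (n * n) := rename (fun a => finProdFinEquiv (a, c)) F

lemma S_hom (k : Fin (n * n)) : (S x j k).IsHomogeneous 2 :=
  (isHomogeneous_X _ _).mul (GenX.lf_hom _ _ _)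

lemma aeval_S (G : PR (n * n)) : aeval z (aeval (S x j) G) = aeval (bz x j z) G := by
  rw [comp_aeval_apply]
  exact congrArg (fun v => aeval v G) (funext fun k => by simp [S, bz])

lemma eval_S (G : PR (n * n)) : eval p (aeval (S x j) G) = eval (Sg x j p) G := by
  rw [← aeval_eq_eval, comp_aeval_apply, ← aeval_eq_eval]
  rfl

lemma Sg_e (a c : Fin n) : Sg x j p (finProdFinEquiv (a, c)) = p a * eval p (lf x j c) := by
  simp [Sg, S]

lemma bz_e (a c : Fin n) : bz x j z (finProdFinEquiv (a, c)) = z a * aeval z (lf x j c) := by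
  simp [bz]

lemma eval_R (c : Fin n) : eval y (R c F) = eval (col y c) F := eval_rename _ _ _

lemma aeval_R (hF : F.IsHomogeneous d) (c : Fin n) :
    aeval (bz x j z) (R c F) = aeval z (lf x j c) ^ d * aeval z F := by
  rw [R, aeval_rename, ← aeval_scale hF]
  exact congrArg (fun v => aeval v F) (funext fun a => (bz_e a c).trans (mul_comm _ _))

lemma R_hom (hF : F.IsHomogeneous d) (c : Fin n) : (R c F).IsHomogeneous d :=
  hF.rename_isHomogeneous

lemma sg_on (h : On z p) : On (bz x j z) (Sg x j p) := fun G _ hG q => by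
  rw [← eval_S]
  exact h _ _ (hG.aeval _ S_hom) ((aeval_S G).trans q)

lemma sg_reg (h : Reg (bz x j z) (Sg x j p) u) : Reg z p u := by
  obtain ⟨A, B, e, hA, hB, h0, rfl⟩ := h
  exact ⟨_, _, _, hA.aeval _ S_hom, hB.aeval _ S_hom, (eval_S B).trans_ne h0, by
    rw [aeval_S, aeval_S]⟩

lemma sg_pp {p' : V n} (h : Pp p p') : Pp (Sg x j p) (Sg x j p') := by
  obtain ⟨c, c0, rfl⟩ := h
  refine ⟨c ^ 2, pow_ne_zero _ c0, funext fun k => ?_⟩
  rw [Pi.smul_apply, smul_eq_mul, Sg, Sg, eval_smul_hom (S_hom k)]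

lemma col_on (h : On (bz x j z) y) (c : Fin n) : On z (col y c) := fun G _ hG q => by
  rw [← eval_R]
  exact h _ _ (R_hom hG c) (by rw [aeval_R hG, q, mul_zero])

lemma col_reg (h : On (bz x j z) y) {c : Fin n} (h0 : col y c ≠ 0) (hu : Reg z (col y c) u) :
    Reg (bz x j z) y u ∧ vl (bz x j z) u y = vl z u (col y c) := by
  obtain ⟨a, ha⟩ := Function.ne_iff.1 h0
  have l0 : aeval z (lf x j c) ≠ 0 := fun q => ha (by
    have := h (X (finProdFinEquiv (a, c))) 1 (isHomogeneous_X _ _)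
      (by rw [aeval_X, bz_e, q, mul_zero])
    rwa [eval_X] at this)
  obtain ⟨A, B, e, hA, hB, b0, rfl⟩ := hu
  have e1 : aeval z A / aeval z B = aeval (bz x j z) (R c A) / aeval (bz x j z) (R c B) := by
    rw [aeval_R hA, aeval_R hB, mul_div_mul_left _ _ (pow_ne_zero _ l0)]
  have b1 : eval y (R c B) ≠ 0 := (eval_R c).trans_ne b0
  refine ⟨⟨_, _, _, R_hom hA c, R_hom hB c, b1, e1⟩, ?_⟩
  rw [vl_eq (col_on h c) hA hB b0, e1, vl_eq h (R_hom hA c) (R_hom hB c) b1, eval_R, eval_R]

/-- Away from the centre the points of the blow-up are values of the rational map. -/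
lemma str (h : On (bz x j z) y) {c : Fin n} (h0 : col y c ≠ 0) (hj : x j ≠ 0)
    (hx : ¬Pp (col y c) x) : Pp y (Sg x j (col y c)) := by
  obtain ⟨a, ha⟩ := Function.ne_iff.1 h0
  have ha : col y c a ≠ 0 := ha
  obtain ⟨b, hb⟩ : ∃ b, eval (col y c) (lf x j b) ≠ 0 := by
    by_contra! q
    have e : col y c = (col y c j / x j) • x := funext fun i => by
      have := q i
      rw [I4.lf, map_sub, map_mul, map_mul, eval_C, eval_X, eval_C, eval_X] at this
      simp only [Pi.smul_apply, smul_eq_mul]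
      field_simp
      linear_combination this
    exact hx ⟨_, fun r => h0 (by rw [e, r, zero_smul]), e⟩
  have e : y = (y (finProdFinEquiv (a, b)) / (col y c a * eval (col y c) (lf x j b))) •
      Sg x j (col y c) := funext fun k => by
    obtain ⟨⟨a', b'⟩, rfl⟩ := finProdFinEquiv.surjective k
    have := h (X (finProdFinEquiv (a', b')) * X (finProdFinEquiv (a, c)) * R c (lf x j b) -
      X (finProdFinEquiv (a, b)) * X (finProdFinEquiv (a', c)) * R c (lf x j b')) _
      ((((isHomogeneous_X _ _).mul (isHomogeneous_X _ _)).mul (R_hom (GenX.lf_hom _ _ _) c)).sub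
        (((isHomogeneous_X _ _).mul (isHomogeneous_X _ _)).mul (R_hom (GenX.lf_hom _ _ _) c))) (by
      simp only [map_sub, map_mul, aeval_X, bz_e, aeval_R (GenX.lf_hom x j _)]
      ring)
    simp only [map_sub, map_mul, eval_X, eval_R] at this
    rw [Pi.smul_apply, Sg_e, smul_eq_mul, div_mul_eq_mul_div, eq_div_iff (mul_ne_zero ha hb)]
    simp only [col] at this ⊢
    linear_combination this
  exact ⟨_, fun r => ha (by
    rw [r, zero_smul] at e
    exact congrFun e _), e⟩

lemma ex_col (P : PS (n * n)) : ∃ c, col P.rep c ≠ 0 := by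
  obtain ⟨k, hk⟩ := Function.ne_iff.1 P.rep_nonzero
  obtain ⟨⟨a, c⟩, rfl⟩ := finProdFinEquiv.surjective k
  exact ⟨c, fun q => hk (congrFun q a)⟩

/-- The projection. -/
def rho (P : PS (n * n)) : PS n := Projectivization.mk ℂ _ (ex_col P).choose_spec

lemma rho_pp (P : PS (n * n)) : Pp (rho P).rep (col P.rep (ex_col P).choose) := rep_mk _

lemma eq_of_pp {m : ℕ} {P Q : PS m} (h : Pp P.rep Q.rep) : P = Q := by
  obtain ⟨c, -, hc⟩ := h
  rw [← P.mk_rep, ← Q.mk_rep]
  exact (Projectivization.mk_eq_mk_iff' ℂ _ _ _ _).2 ⟨c, hc.symm⟩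

lemma off {x : PS n} {P : PS (n * n)} (h : P ∈ bW x.rep j z) (hj : x.rep j ≠ 0)
    (hx : rho P ≠ x) : Pp P.rep (Sg x.rep j (rho P).rep) :=
  (str h (ex_col P).choose_spec hj fun q => hx (eq_of_pp ((rho_pp P).trans q))).trans
    (sg_pp (rho_pp P).symm)

end BlAX

open BlAX

theorem blA : BlAStmt := by
  intro n W K _ _ z x j hW hz _ hj ⟨c, hc⟩
  have on : ∀ P ∈ bW x.rep j z, On z (rho P).rep := fun P hP => (rho_pp P).on (col_on hP _)
  have dm : Dm W z (bW x.rep j z) (bz x.rep j z) rho := fun P hP => ⟨?_, fun u hu => ?_⟩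
  · refine ⟨rho, ⟨⟨{F | ∃ d, F.IsHomogeneous d ∧ aeval (bz x.rep j z) F = 0},
      fun F ⟨d, h, _⟩ => ⟨d, h⟩, Set.ext fun P => ⟨fun h F ⟨d, a, b⟩ => h F d a b,
        fun h F d a b => h F ⟨d, a, b⟩⟩⟩, ⟨fun F d hF => ⟨fun q P hP => hP F d hF q, fun q => ?_⟩,
        eq_top_iff.2 (hz.2 ▸ IntermediateField.adjoin.mono _ _ _ ?_)⟩, dm, fun P hP h => ?_,
      fun P hP P' hP' h e => eq_of_pp ((off hP hj h).trans ?_)⟩,
      fun P _ e => ⟨_, ((rho_pp P).coord j).1 (e ▸ hj)⟩⟩
    · have h1 := (hz.1 _ _ ((hF.aeval _ (S_hom (x := x.rep) (j := j))).mul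
        (GenX.lf_hom x.rep j c))).2 fun P hP => by
          rw [map_mul, eval_S]
          refine mul_eq_zero.2 (or_iff_not_imp_right.2 fun l0 => ?_)
          obtain ⟨a, ha⟩ := Function.ne_iff.1 P.rep_nonzero
          have s0 : Sg x.rep j P.rep ≠ 0 := fun r => mul_ne_zero ha l0
            ((Sg_e a c).symm.trans (congrFun r _))
          exact (eval_mk hF s0).1 (q _ (Pp.on (rep_mk s0) (sg_on (on_rep hz (sub_zcl hP)))))
      rw [map_mul, aeval_S] at h1
      exact (mul_eq_zero.1 h1).resolve_right hc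
    · rintro _ ⟨a, b, rfl⟩
      exact ⟨finProdFinEquiv (a, c), finProdFinEquiv (b, c), by
        rw [bz_e, bz_e, mul_div_mul_right _ _ hc]⟩
    · refine Subalgebra.ext fun u => ?_
      rw [loc_iff hP, loc_iff (on P hP)]
      exact ⟨fun r => sg_reg ((off hP hj h).symm.reg r), fun r => ((dm P hP).2 u r).1⟩
    · rw [e] at h ⊢
      exact (off hP' hj h).symm
  · obtain ⟨T, h1, h2⟩ := hW
    rw [h2]
    intro F hF
    obtain ⟨d, hd⟩ := h1 F hF
    exact on P hP F d hd ((hz.1 F d hd).2 fun Q hQ => (h2 ▸ hQ) F hF)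
  · have r := (rho_pp P).symm.reg hu
    rw [(rho_pp P).vl (col_on hP _) r]
    exact col_reg hP (ex_col P).choose_spec r

end Pool.Agent.MP_c69980_ag.I4B
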