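import Pool.Agent.MP_c69980_ag.I4B.Base
import Pool.Agent.MP_c69980_ag.I4.Gen

/-!
The local rings of the blow-up at the points over the centre.
-/

set_option autoImplicit false

noncomputable section

namespace Pool.Agent.MP_c69980_ag.I4B

open MvPolynomial Set
open H60 H4 E1 I4

namespace BlBX

variable {K : Type} [Field K] [Algebra ℂ K] {n n' : ℕ} {z : Fin n → K} {p : V n} {j : Fin n}
  {f s t : K}

/-- Functions that are constant modulo `I`. -/
def ci (hp : On z p) (I : Submodule (rg hp) K) : Subalgebra ℂ K where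
  carrier := {f | Reg z p f ∧ f - algebraMap ℂ K (vl z f p) ∈ I}
  mul_mem' := fun {f g} a b => ⟨(vl_mul hp a.1 b.1).1, by
    rw [(vl_mul hp a.1 b.1).2, map_mul, show f * g - algebraMap ℂ K (vl z f p) *
      algebraMap ℂ K (vl z g p) = g * (f - algebraMap ℂ K (vl z f p)) +
        algebraMap ℂ K (vl z f p) * (g - algebraMap ℂ K (vl z g p)) by ring]
    exact add_mem (I.smul_mem ⟨g, b.1⟩ a.2) (I.smul_mem ⟨_, (vl_const hp _).1⟩ b.2)⟩
  add_mem' := fun {f g} a b => ⟨(vl_add hp a.1 b.1).1, by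
    rw [(vl_add hp a.1 b.1).2, map_add, add_sub_add_comm]
    exact add_mem a.2 b.2⟩
  algebraMap_mem' := fun c => ⟨(vl_const hp c).1, by
    rw [(vl_const hp c).2, sub_self]
    exact zero_mem _⟩

lemma ne_of (hp : On z p) (h : vl z f p ≠ 0) : f ≠ 0 := fun e => h (e ▸ (vl_zero hp).2)

lemma ci_inv (hp : On z p) {I : Submodule (rg hp) K} (hf : f ∈ ci hp I) (h : vl z f p ≠ 0) :
    f⁻¹ ∈ ci hp I := by
  have a := vl_inv hp ⟨hf.1, h⟩
  refine ⟨a.1, ?_⟩
  have f0 := ne_of hp h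
  have c0 : algebraMap ℂ K (vl z f p) ≠ 0 := (map_ne_zero _).2 h
  rw [a.2, show f⁻¹ - algebraMap ℂ K (vl z f p)⁻¹ = (f⁻¹ * algebraMap ℂ K (-(vl z f p)⁻¹)) *
    (f - algebraMap ℂ K (vl z f p)) by rw [map_neg, map_inv₀]; field_simp; ring]
  exact I.smul_mem ⟨_, (vl_mul hp a.1 (vl_const hp _).1).1⟩ hf.2

lemma co (hp : On z p) (hj : p j ≠ 0) (c : Fin n) :
    Reg z p (z c / z j) ∧ vl z (z c / z j) p = p c / p j :=
  ⟨⟨X c, X j, 1, isHomogeneous_X _ _, isHomogeneous_X _ _, by simpa, by simp⟩, by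
    simpa using vl_eq hp (isHomogeneous_X ℂ c) (isHomogeneous_X ℂ j) (by simpa)⟩

lemma z_ne (hp : On z p) (hj : p j ≠ 0) : z j ≠ 0 := fun h =>
  hj (by simpa using hp (X j) 1 (isHomogeneous_X _ _) (by simpa))

/-- The local ring is generated by the affine coordinates. -/
lemma ci_all (hp : On z p) (hj : p j ≠ 0) {I : Submodule (rg hp) K}
    (h : ∀ c, z c / z j ∈ ci hp I) (hf : Reg z p f) : f ∈ ci hp I := by
  have zj := z_ne hp hj
  have m : ∀ (F : PR n) (d : ℕ), F.IsHomogeneous d → aeval z F / z j ^ d ∈ ci hp I := by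
    intro F d hF
    have e : ((aeval (fun c => (⟨z c / z j, h c⟩ : ci hp I)) F : ci hp I) : K) =
        aeval (fun c => z c / z j) F := comp_aeval_apply _ (ci hp I).val F
    have e' : aeval (fun c => z c / z j) F = aeval z F / z j ^ d := by
      rw [div_eq_inv_mul (aeval z F), ← inv_pow, ← aeval_scale hF]
      simp only [div_eq_inv_mul]
    rw [← e', ← e]
    exact Subtype.prop (p := (· ∈ ci hp I)) _
  obtain ⟨F, G, d, hF, hG, h0, rfl⟩ := hf
  have v := vl_eq hp hG (isHomogeneous_X_pow (R := ℂ) j d) (by simp [hj])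
  rw [map_pow, aeval_X, map_pow, eval_X] at v
  have := mul_mem (m F d hF) (ci_inv hp (m G d hG) (v ▸ div_ne_zero h0 (pow_ne_zero _ hj)))
  rwa [← div_eq_mul_inv, div_div_div_cancel_right₀ (pow_ne_zero _ zj)] at this

/-- The coordinates centred at `p`. -/
def lc (z : Fin n → K) (p : V n) (j c : Fin n) : K := z c / z j - algebraMap ℂ K (p c / p j)

lemma sub_val (hp : On z p) (hf : Reg z p f) :
    Reg z p (f - algebraMap ℂ K (vl z f p)) ∧ vl z (f - algebraMap ℂ K (vl z f p)) p = 0 := by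
  have a := vl_add hp hf (vl_const hp (-vl z f p)).1
  rwa [(vl_const hp _).2, add_neg_cancel, map_neg, ← sub_eq_add_neg] at a

lemma lc_val (hp : On z p) (hj : p j ≠ 0) (c : Fin n) :
    Reg z p (lc z p j c) ∧ vl z (lc z p j c) p = 0 := by
  have := sub_val hp (co hp hj c).1
  rwa [(co hp hj c).2] at this

lemma lc_span (hp : On z p) (hj : p j ≠ 0) (hf : Reg z p f) (h0 : vl z f p = 0) :
    f ∈ Submodule.span (rg hp) (range (lc z p j)) := by
  have := (ci_all hp hj (I := Submodule.span (rg hp) (range (lc z p j))) (fun c =>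
    ⟨(co hp hj c).1, (co hp hj c).2 ▸ Submodule.subset_span ⟨c, rfl⟩⟩) hf).2
  rwa [h0, map_zero, sub_zero] at this

lemma lf_eq (hp : On z p) (hj : p j ≠ 0) (c : Fin n) :
    aeval z (lf p j c) = algebraMap ℂ K (p j) * z j * lc z p j c := by
  have zj := z_ne hp hj
  have c0 : algebraMap ℂ K (p j) ≠ 0 := (map_ne_zero _).2 hj
  simp only [I4.lf, lc, map_sub, map_mul, aeval_C, aeval_X, map_div₀]
  field_simp

variable {x : PS n}

lemma par_val (hx : On z x.rep) (h : Par (locRing z x) s t) :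
    Reg z x.rep s ∧ vl z s x.rep = 0 := by
  have a := (loc_iff hx _).1 h.1
  exact ⟨a, by_contra fun e => h.2.2.2.2.1 ((loc_iff hx _).2 (vl_inv hx ⟨a, e⟩).1)⟩

lemma par_ex (hx : On z x.rep) (h : Par (locRing z x) s t) (hf : Reg z x.rep f)
    (h0 : vl z f x.rep = 0) : ∃ a b, Reg z x.rep a ∧ Reg z x.rep b ∧ f = a * s + b * t := by
  obtain ⟨a, ha, b, hb, e⟩ := (h.2.2.2.2.2.2 f ((loc_iff hx _).2 hf)).resolve_left
    fun q => ((ut_loc hx).1 q).2 h0
  exact ⟨a, b, (loc_iff hx _).1 ha, (loc_iff hx _).1 hb, e⟩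

lemma indep (hx : On z x.rep)
    (hR : IsRegularLocalRing (locRing z x) ∧ ringKrullDim (locRing z x) = 2)
    (h : Par (locRing z x) s t) (c : ℂ) : t / s - algebraMap ℂ K c ≠ 0 := by
  intro e
  obtain ⟨h1, h2⟩ := hR
  have e1 : t = algebraMap ℂ K c * s := (div_eq_iff h.2.2.1).1 (sub_eq_zero.1 e)
  have m : IsLocalRing.maximalIdeal (locRing z x) = Submodule.span _ {⟨s, h.1⟩} := by
    refine le_antisymm (fun u hu => ?_) ((Submodule.span_singleton_le_iff_mem _ _).2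
      fun q => (unit_iff hx _).1 q (par_val hx h).2)
    obtain ⟨a, ha, b, hb, q⟩ := (h.2.2.2.2.2.2 u u.2).resolve_left fun q => hu ((ut_iff u).2 q)
    refine Submodule.mem_span_singleton.2 ⟨⟨a, ha⟩ + ⟨b, hb⟩ * algebraMap ℂ _ c, Subtype.ext ?_⟩
    show (a + b * algebraMap ℂ K c) * s = u
    rw [q, e1]
    ring
  have h3 := h1.spanFinrank_maximalIdeal
  rw [h2, m, Submodule.spanFinrank_singleton fun q => h.2.2.1 (congrArg Subtype.val q)] at h3
  exact absurd h3 (by decide)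

/-- A point of the blow-up over the centre. -/
structure Ov (z : Fin n → K) (x : PS n) (j c₀ : Fin n) (y : PS (n * n)) : Prop where
  hx : On z x.rep
  hj : x.rep j ≠ 0
  hy : On (bz x.rep j z) y.rep
  k0 : y.rep (finProdFinEquiv (j, c₀)) ≠ 0
  dm : ∀ u, Reg z x.rep u →
    Reg (bz x.rep j z) y.rep u ∧ vl (bz x.rep j z) u y.rep = vl z u x.rep

variable {c₀ : Fin n} {y : PS (n * n)}

lemma Ov.l0 (h : Ov z x j c₀ y) : lc z x.rep j c₀ ≠ 0 := fun e =>
  z_ne h.hy h.k0 (by rw [bz, Equiv.symm_apply_apply, lf_eq h.hx h.hj, e, mul_zero, mul_zero])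

lemma Ov.rat (h : Ov z x j c₀ y) (k : Fin (n * n)) :
    bz x.rep j z k / bz x.rep j z (finProdFinEquiv (j, c₀)) = z (finProdFinEquiv.symm k).1 / z j *
      (lc z x.rep j (finProdFinEquiv.symm k).2 / lc z x.rep j c₀) := by
  have a := h.l0
  have zj := z_ne h.hx h.hj
  have c0 : algebraMap ℂ K (x.rep j) ≠ 0 := (map_ne_zero _).2 h.hj
  rw [bz, bz, Equiv.symm_apply_apply, lf_eq h.hx h.hj, lf_eq h.hx h.hj]
  field_simp

lemma Ov.div (h : Ov z x j c₀ y) (hf : Reg z x.rep f) (h0 : vl z f x.rep = 0) :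
    Reg (bz x.rep j z) y.rep (f / lc z x.rep j c₀) := by
  have a := lc_span h.hx h.hj hf h0
  clear hf h0
  induction a using Submodule.span_induction with
  | mem u hu =>
    obtain ⟨c, rfl⟩ := hu
    have b := (co h.hy h.k0 (finProdFinEquiv (j, c))).1
    rwa [h.rat, Equiv.symm_apply_apply, div_self (z_ne h.hx h.hj), one_mul] at b
  | zero => rw [zero_div]; exact (vl_zero h.hy).1
  | add u v _ _ a b => rw [add_div]; exact (vl_add h.hy a b).1
  | smul a u _ b =>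
    show Reg _ _ (a * u / _)
    rw [mul_div_assoc]
    exact (vl_mul h.hy (h.dm a a.2).1 b).1

lemma Ov.unit (h : Ov z x j c₀ y) (hp : Par (locRing z x) s t) :
    vl (bz x.rep j z) (s / lc z x.rep j c₀) y.rep ≠ 0 ∨
      vl (bz x.rep j z) (t / lc z x.rep j c₀) y.rep ≠ 0 := by
  obtain ⟨a, b, ha, hb, e⟩ := par_ex h.hx hp (lc_val h.hx h.hj c₀).1 (lc_val h.hx h.hj c₀).2
  have r1 := h.div (par_val h.hx hp).1 (par_val h.hx hp).2
  have r2 := h.div (par_val h.hx hp.symm).1 (par_val h.hx hp.symm).2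
  have m1 := vl_mul h.hy (h.dm a ha).1 r1
  have m2 := vl_mul h.hy (h.dm b hb).1 r2
  have m := (vl_add h.hy m1.1 m2.1).2
  rw [m1.2, m2.2, ← mul_div_assoc, ← mul_div_assoc, ← add_div, ← e, div_self h.l0,
    (vl_one h.hy).2] at m
  by_contra q
  rw [not_or, not_not, not_not] at q
  rw [q.1, q.2, mul_zero, mul_zero, add_zero] at m
  exact one_ne_zero m

lemma Ov.slope (h : Ov z x j c₀ y) (hp : Par (locRing z x) s t)
    (hu : vl (bz x.rep j z) (s / lc z x.rep j c₀) y.rep ≠ 0) :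
    Reg (bz x.rep j z) y.rep (t / s) ∧ vl (bz x.rep j z) (t / s) y.rep =
      vl (bz x.rep j z) (t / lc z x.rep j c₀) y.rep /
        vl (bz x.rep j z) (s / lc z x.rep j c₀) y.rep := by
  have := vl_div h.hy (h.div (par_val h.hx hp.symm).1 (par_val h.hx hp.symm).2)
    ⟨h.div (par_val h.hx hp).1 (par_val h.hx hp).2, hu⟩
  rwa [div_div_div_cancel_right₀ h.l0] at this

lemma Ov.par (h : Ov z x j c₀ y)
    (hR : IsRegularLocalRing (locRing z x) ∧ ringKrullDim (locRing z x) = 2)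
    (hp : Par (locRing z x) s t) (hu : vl (bz x.rep j z) (s / lc z x.rep j c₀) y.rep ≠ 0) :
    Par (locRing (bz x.rep j z) y) s
      (t / s - algebraMap ℂ K (vl (bz x.rep j z) (t / s) y.rep)) := by
  have rT := (h.slope hp hu).1
  have r1 := sub_val h.hy rT
  have n1 := indep h.hx hR hp (vl (bz x.rep j z) (t / s) y.rep)
  have s0 := hp.2.2.1
  have rs := h.dm s (par_val h.hx hp).1
  rw [(par_val h.hx hp).2] at rs
  obtain ⟨T, hT⟩ : ∃ T, T = t / s - algebraMap ℂ K (vl (bz x.rep j z) (t / s) y.rep) := ⟨_, rfl⟩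
  rw [← hT] at r1 n1 ⊢
  obtain ⟨I, hI⟩ : ∃ I, I = Submodule.span (rg h.hy) ({s, T} : Set K) := ⟨_, rfl⟩
  have sI : s ∈ I := hI ▸ Submodule.subset_span (Or.inl rfl)
  have TI : t / s ∈ ci h.hy I := ⟨rT, hT ▸ hI ▸ Submodule.subset_span (Or.inr rfl)⟩
  have OI : ∀ f, Reg z x.rep f → f ∈ ci h.hy I := fun f hf => by
    refine ⟨(h.dm f hf).1, ?_⟩
    obtain ⟨a, b, ha, hb, e⟩ := par_ex h.hx hp (sub_val h.hx hf).1 (sub_val h.hx hf).2
    rw [(h.dm f hf).2, e, show a * s + b * t = (a + b * (t / s)) * s by field_simp]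
    exact I.smul_mem ⟨_, (vl_add h.hy (h.dm a ha).1 (vl_mul h.hy (h.dm b hb).1 rT).1).1⟩ sI
  have lI : ∀ c, lc z x.rep j c / s ∈ ci h.hy I := fun c => by
    obtain ⟨a, b, ha, hb, e⟩ := par_ex h.hx hp (lc_val h.hx h.hj c).1 (lc_val h.hx h.hj c).2
    rw [e, add_div, mul_div_cancel_right₀ _ s0, mul_div_assoc]
    exact add_mem (OI a ha) (mul_mem (OI b hb) TI)
  have iI : (lc z x.rep j c₀ / s)⁻¹ ∈ ci h.hy I := ci_inv h.hy (lI c₀) (by
    rw [← inv_div, (vl_inv h.hy ⟨h.div (par_val h.hx hp).1 (par_val h.hx hp).2, hu⟩).2]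
    exact inv_ne_zero hu)
  have aI : ∀ f, Reg (bz x.rep j z) y.rep f → f ∈ ci h.hy I := fun f => ci_all h.hy h.k0 fun k => by
    have := mul_mem (lI (finProdFinEquiv.symm k).2) iI
    rw [← div_eq_mul_inv, div_div_div_cancel_right₀ s0] at this
    rw [h.rat]
    exact mul_mem (OI _ (co h.hx h.hj _).1) this
  refine ⟨(loc_iff h.hy _).2 rs.1, (loc_iff h.hy _).2 r1.1, s0, n1,
    fun q => (inv_iff h.hy rs.1 s0).1 ((loc_iff h.hy _).1 q) rs.2,
    fun q => (inv_iff h.hy r1.1 n1).1 ((loc_iff h.hy _).1 q) r1.2, fun f hf => ?_⟩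
  have rf := (loc_iff h.hy _).1 hf
  by_cases e : vl (bz x.rep j z) f y.rep = 0
  · have m := (aI f rf).2
    rw [e, map_zero, sub_zero, hI, Submodule.mem_span_pair] at m
    obtain ⟨a, b, q⟩ := m
    exact Or.inr ⟨a, (loc_iff h.hy _).2 a.2, b, (loc_iff h.hy _).2 b.2, q.symm⟩
  · exact Or.inl ((ut_loc h.hy).2 ⟨rf, e⟩)

/-- The point of slope zero. -/
lemma uniq (hx : On z x.rep) (hj : x.rep j ≠ 0) (hp : Par (locRing z x) s t) :
    ∃ v : V (n * n), ∀ c₀ y, Ov z x j c₀ y → Par (locRing (bz x.rep j z) y) s (t / s) →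
      ∃ μ : ℂ, y.rep = μ • v := by
  choose a b ha hb e using fun c => par_ex hx hp (lc_val hx hj c).1 (lc_val hx hj c).2
  refine ⟨fun k => x.rep (finProdFinEquiv.symm k).1 / x.rep j *
    vl z (a (finProdFinEquiv.symm k).2) x.rep, fun c₀ y h q => ?_⟩
  have s0 := hp.2.2.1
  have rT := par_val h.hy q.symm
  have l : ∀ c, Reg (bz x.rep j z) y.rep (lc z x.rep j c / s) ∧
      vl (bz x.rep j z) (lc z x.rep j c / s) y.rep = vl z (a c) x.rep := fun c => by
    have m1 := vl_mul h.hy (h.dm _ (hb c)).1 rT.1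
    have m2 := vl_add h.hy (h.dm _ (ha c)).1 m1.1
    rw [m1.2, rT.2, mul_zero, add_zero, (h.dm _ (ha c)).2] at m2
    rwa [e, add_div, mul_div_cancel_right₀ _ s0, mul_div_assoc]
  have l0 : vl z (a c₀) x.rep ≠ 0 := by
    rw [← (l c₀).2]
    refine (inv_iff h.hy (l c₀).1 (div_ne_zero h.l0 s0)).1 ?_
    rw [inv_div]
    exact h.div (par_val hx hp).1 (par_val hx hp).2
  refine ⟨y.rep (finProdFinEquiv (j, c₀)) / vl z (a c₀) x.rep, funext fun k => ?_⟩
  have m1 := (vl_mul h.hy (co h.hy h.k0 k).1 (l c₀).1).2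
  have m2 := (vl_mul h.hy (h.dm _ (co hx hj (finProdFinEquiv.symm k).1).1).1
    (l (finProdFinEquiv.symm k).2).1).2
  rw [(co h.hy h.k0 k).2, (l c₀).2, h.rat, mul_assoc, div_mul_div_cancel₀ h.l0, m2, (l _).2,
    (h.dm _ (co hx hj _).1).2, (co hx hj _).2] at m1
  have k0 := h.k0
  rw [Pi.smul_apply, smul_eq_mul, m1]
  field_simp

lemma eq_of {m : ℕ} {y y' : PS m} {v : V m} {μ μ' : ℂ} (h : y.rep = μ • v) (h' : y'.rep = μ' • v) :
    y = y' := by
  have a : μ' ≠ 0 := fun e => y'.rep_nonzero (by rw [h', e, zero_smul])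
  rw [← y.mk_rep, ← y'.mk_rep, Projectivization.mk_eq_mk_iff']
  exact ⟨μ / μ', by rw [h, h', smul_smul, div_mul_cancel₀ _ a]⟩

end BlBX

open BlBX

theorem blB : BlBStmt := by
  intro n W K _ _ z x j s t ρ hz hR hx hj hp hM hk
  have ox := on_rep hz (sub_zcl hx)
  have ov : ∀ y ∈ bW x.rep j z, ρ y = x → ∃ c₀, Ov z x j c₀ y := fun y hy e => by
    obtain ⟨c, hc⟩ := hk y hy e
    have a := (hM.dm y hy).2
    rw [e] at a
    exact ⟨c, ox, hj, hy, hc, a⟩
  have un : ∀ s t, Par (locRing z x) s t → ∀ y ∈ bW x.rep j z, ∀ y' ∈ bW x.rep j z, ρ y = x →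
      ρ y' = x → Par (locRing (bz x.rep j z) y) s (t / s) →
      Par (locRing (bz x.rep j z) y') s (t / s) → y = y' := by
    intro s t hp y hy y' hy' e e' q q'
    obtain ⟨v, hv⟩ := uniq ox hj hp
    obtain ⟨c, h⟩ := ov y hy e
    obtain ⟨c', h'⟩ := ov y' hy' e'
    obtain ⟨μ, a⟩ := hv c y h q
    obtain ⟨μ', a'⟩ := hv c' y' h' q'
    exact eq_of a a'
  refine ⟨fun y hy e => ?_, un s t hp, un t s hp.symm⟩
  obtain ⟨c, h⟩ := ov y hy e
  by_cases q : vl (bz x.rep j z) (s / lc z x.rep j c) y.rep = 0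
  · have q' := (h.unit hp).resolve_left (not_not.2 q)
    have a := h.par (hR x hx) hp.symm q'
    rw [(h.slope hp.symm q').2, q, zero_div, map_zero, sub_zero] at a
    exact Or.inr a
  · exact Or.inl ⟨_, h.par (hR x hx) hp q⟩

theorem bl (h1 : BlAStmt) (h2 : BlBStmt) : BlStmt := by
  intro n W K _ _ z x s t hW hz hR hx hp
  have ox := on_rep hz (sub_zcl hx)
  obtain ⟨j, hj⟩ := Function.ne_iff.1 x.rep_nonzero
  replace hj : x.rep j ≠ 0 := hj
  obtain ⟨ρ, a, b⟩ := h1 n W K z x j hW hz hx hj (by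
    by_contra q
    have m := lc_span ox hj (par_val ox hp).1 (par_val ox hp).2
    rw [Submodule.span_eq_bot.2, Submodule.mem_bot] at m
    · exact hp.2.2.1 m
    · rintro _ ⟨c, rfl⟩
      by_contra e
      exact q ⟨c, lf_eq ox hj c ▸
        mul_ne_zero (mul_ne_zero ((map_ne_zero _).2 hj) (z_ne ox hj)) e⟩)
  exact ⟨_, _, _, ρ, a, h2 n W K z x j s t ρ hz hR hx hj hp a b⟩

end Pool.Agent.MP_c69980_ag.I4B
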