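import Pool.Agent.MP_c69980_ag.I4B.Base
import Pool.Agent.MP_6e1b31_ag.KR.D1a

/-!
The local rings of a projective surface are Noetherian of dimension at least two.
-/

set_option autoImplicit false

noncomputable section

namespace Pool.Agent.MP_c69980_ag.I4B

open MvPolynomial Set
open H60 H4 E1 I4

namespace DimX

theorem ht {A K : Type} [CommRing A] [IsDomain A] [Algebra ℂ A] [Algebra.FiniteType ℂ A] [Field K]
    [Algebra ℂ K] [Algebra A K] [IsScalarTower ℂ A K] [IsFractionRing A K]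
    (tr : Algebra.trdeg ℂ K = 2) (χ : A →ₐ[ℂ] ℂ) : 2 ≤ (RingHom.ker χ).height := by
  obtain ⟨s, g, g1, g2⟩ := exists_integral_inj_algHom_of_fg ℂ A
  let := g.toRingHom.toAlgebra
  have : IsScalarTower ℂ (MvPolynomial (Fin s) ℂ) A :=
    IsScalarTower.of_algebraMap_eq fun c => (g.commutes c).symm
  have : FaithfulSMul (MvPolynomial (Fin s) ℂ) A := (faithfulSMul_iff_algebraMap_injective _ _).2 g1
  have : Algebra.IsIntegral (MvPolynomial (Fin s) ℂ) A := ⟨g2⟩
  have : Algebra.IsAlgebraic A K := IsLocalization.isAlgebraic K (nonZeroDivisors A)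
  have hs : s = 2 := by
    have h1 := trdeg_add_eq ℂ (MvPolynomial (Fin s) ℂ) (A := A)
    have h2 := trdeg_add_eq ℂ A (A := K)
    rw [trdeg_eq_zero (R := MvPolynomial (Fin s) ℂ), add_zero, trdeg_of_isDomain] at h1
    rw [trdeg_eq_zero (R := A), add_zero, ← h1, tr] at h2
    rw [Cardinal.mk_fin, Cardinal.lift_natCast] at h2
    exact_mod_cast h2
  have : IsNoetherianRing A := Algebra.FiniteType.isNoetherianRing ℂ A
  have : (RingHom.ker χ).IsPrime := RingHom.ker_isPrime _
  have : (RingHom.ker χ).LiesOver (vanishingIdeal ℂ {fun i => χ (g (X i))}) := ⟨by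
    ext f
    have e : aeval (fun i => χ (g (X i))) = χ.comp g := (aeval_unique (χ.comp g)).symm
    rw [mem_vanishingIdeal_singleton_iff, e]
    rfl⟩
  rw [Ideal.height_eq_height_add_of_liesOver_of_hasGoingDown
    (vanishingIdeal ℂ {fun i => χ (g (X i))}), MP_6e1b31_ag.KR.D1x.height_pt, Fintype.card_fin]
  exact le_trans (by exact_mod_cast hs.ge) le_self_add

theorem core {K : Type} [Field K] [Algebra ℂ K] (A O : Subalgebra ℂ K) (hAO : A ≤ O)
    [Algebra.FiniteType ℂ A] (χ : O →ₐ[ℂ] ℂ) (hu : ∀ o : O, χ o ≠ 0 → IsUnit o)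
    (hs : ∀ o : O, ∃ a b : A, χ (Subalgebra.inclusion hAO b) ≠ 0 ∧ (o : K) * b = a)
    (hK : ∀ f : K, ∃ a b : A, f = a / b) (tr : Algebra.trdeg ℂ K = 2) :
    IsNoetherianRing O ∧ 2 ≤ ringKrullDim O := by
  have : IsFractionRing A K := IsFractionRing.of_field A K hK
  have h := ht tr (χ.comp (Subalgebra.inclusion hAO))
  have : (RingHom.ker (χ.comp (Subalgebra.inclusion hAO))).IsPrime := RingHom.ker_isPrime _
  let := (Subalgebra.inclusion hAO).toRingHom.toAlgebra
  have : IsLocalization.AtPrime O (RingHom.ker (χ.comp (Subalgebra.inclusion hAO))) := by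
    rw [IsLocalization.AtPrime, isLocalization_iff]
    refine ⟨fun y => hu _ y.2, fun o => ?_, fun {a b} e => ⟨1, ?_⟩⟩
    · obtain ⟨a, b, h1, h2⟩ := hs o
      exact ⟨(a, ⟨b, h1⟩), Subtype.ext h2⟩
    · rw [Subalgebra.inclusion_injective hAO e]
  have : IsNoetherianRing A := Algebra.FiniteType.isNoetherianRing ℂ A
  refine ⟨IsLocalization.isNoetherianRing
    (RingHom.ker (χ.comp (Subalgebra.inclusion hAO))).primeCompl O this, ?_⟩
  rw [IsLocalization.AtPrime.ringKrullDim_eq_height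
    (RingHom.ker (χ.comp (Subalgebra.inclusion hAO))) O]
  exact WithBot.coe_le_coe.2 h

end DimX

theorem dim : DimStmt := by
  intro n W K _ _ z hz tr x hx
  have ho := on_rep hz (sub_zcl hx)
  obtain ⟨j, hj⟩ := Function.ne_iff.1 x.rep_nonzero
  have hj' : ∀ d : ℕ, eval x.rep (X j ^ d : PR n) ≠ 0 := fun d => by
    rw [map_pow, eval_X]
    exact pow_ne_zero d hj
  have zj : z j ≠ 0 := fun e => hj (by simpa using ho (X j) 1 (isHomogeneous_X _ _) (by simpa))
  let A := Algebra.adjoin ℂ (range fun i => z i / z j)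
  have : Algebra.FiniteType ℂ A := .adjoin_of_finite (finite_range _)
  have hAO : A ≤ locRing z x := Algebra.adjoin_le (by
    rintro _ ⟨i, rfl⟩
    exact (loc_iff ho _).2 ⟨X i, X j, 1, isHomogeneous_X _ _, isHomogeneous_X _ _, by simpa,
      by simp⟩)
  have hA : ∀ (F : PR n) (d : ℕ), F.IsHomogeneous d → aeval z F / aeval z (X j ^ d : PR n) ∈ A := by
    intro F d hF
    have e : (fun i => z i / z j) = (z j)⁻¹ • z := funext fun i => by
      rw [Pi.smul_apply, smul_eq_mul, div_eq_inv_mul]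
    rw [map_pow, aeval_X, div_eq_inv_mul, ← inv_pow, ← aeval_smul_hom hF, ← e]
    exact (Algebra.adjoin_range_eq_range_aeval ℂ _).ge ⟨F, rfl⟩
  have h0 : ∀ d : ℕ, aeval z (X j ^ d : PR n) ≠ 0 := fun d => by
    rw [map_pow, aeval_X]
    exact pow_ne_zero d zj
  have hO : locRing z x ≤ rg ho := fun u hu => (loc_iff ho u).1 hu
  refine DimX.core A _ hAO ((chi ho).comp (Subalgebra.inclusion hO))
    (fun o h => (unit_iff ho o).2 h) (fun o => ?_) (fun f => ?_) tr
  · obtain ⟨F, G, d, hF, hG, h1, h2⟩ := (loc_iff ho _).1 o.2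
    refine ⟨⟨_, hA F d hF⟩, ⟨_, hA G d hG⟩, ?_, ?_⟩
    · change vl z (aeval z G / aeval z (X j ^ d : PR n)) x.rep ≠ 0
      rw [vl_eq ho hG (isHomogeneous_X_pow j d) (hj' d)]
      exact div_ne_zero h1 (hj' d)
    · rw [h2]
      exact div_mul_div_cancel₀ fun q => h1 (ho G d hG q)
  · obtain ⟨F, G, d, hF, hG, -, h2⟩ := quot hz f
    exact ⟨⟨_, hA F d hF⟩, ⟨_, hA G d hG⟩, h2.trans (div_div_div_cancel_right₀ (h0 d) _ _).symm⟩

theorem reg (h : DimStmt) : RegStmt := by
  intro n W K _ _ z hz tr x hx s t hp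
  obtain ⟨h1, h2⟩ := h n W K z hz tr x hx
  have : IsLocalRing (locRing z x) := IsLocalRing.of_isUnit_or_isUnit_one_sub_self fun v => by
    have ho := on_rep hz (sub_zcl hx)
    have hO : locRing z x ≤ rg ho := fun u hu => (loc_iff ho u).1 hu
    by_cases c : (chi ho).comp (Subalgebra.inclusion hO) v = 0
    · refine Or.inr ((unit_iff ho _).2 ?_)
      change (chi ho).comp (Subalgebra.inclusion hO) (1 - v) ≠ 0
      rw [map_sub, map_one, c, sub_zero]
      exact one_ne_zero
    · exact Or.inl ((unit_iff ho _).2 c)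
  let u : Fin 2 → locRing z x := ![⟨s, hp.1⟩, ⟨t, hp.2.1⟩]
  have e := IsLocalRing.eq_maximalIdeal ((par_iff u).1 hp).1
  have a : (IsLocalRing.maximalIdeal (locRing z x)).spanFinrank ≤ 2 := by
    rw [← e]
    refine (Submodule.spanFinrank_span_le_ncard_of_finite (finite_range u)).trans ?_
    rw [← image_univ]
    exact (ncard_image_le finite_univ).trans (by simp [ncard_univ])
  exact .of_spanFinrank_maximalIdeal_le _ (le_trans (by exact_mod_cast a) h2)

end Pool.Agent.MP_c69980_ag.I4B
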