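import Pool.Agent.MP_c69980_ag.I4B.MainA
import Pool.Agent.MP_c69980_ag.G3.All
import Pool.Agent.MP_c69980_ag.G3S.All
import Pool.Agent.MP_c69980_ag.G3C.End

/-!
Surfaces of log-general type with a nonconstant invertible regular function.
-/

set_option autoImplicit false

namespace Pool.Agent.MP_c69980_ag.I4B

open H60 H4

open E2.G3S in
theorem mainU : E2.G3S.MainStmt :=
  main (EC.endS aAH G3.linkS aAdm aGlue aSecFin aSep aKey aBd aFin)

theorem all5 {n : ℕ} {U : Set (PS n)} (hU : IsVar U) {K : Type} [Field K] [Algebra ℂ K]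
    {z : Fin n → K} (hz : GenPt U z) (h2 : Algebra.trdeg ℂ K = 2) (h4 : LogGT U z) {u : K}
    (hu : ∀ x ∈ U, u ∈ locRing z x ∧ u⁻¹ ∈ locRing z x) (hc : ∀ s : ℂ, u ≠ algebraMap ℂ K s) :
    PseudoKob U ∧ PseudoBrody U ∧ H43.PseudoFin U ∧ PseudoBdd U :=
  all4 mainU hU hz h2 h4 hu hc

end Pool.Agent.MP_c69980_ag.I4B
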