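import Pool.Agent.MP_c69980_ag.I4B.Base
import Pool.Agent.MP_f3836a_nt.PK.BReg

/-!
A unit is a monomial along the boundary; it is undetermined at finitely many points.
-/

set_option autoImplicit false

noncomputable section

namespace Pool.Agent.MP_c69980_ag.I4B

open MvPolynomial Set
open H60 H4 E1 I4

namespace MonX

lemma mono {R : Type} [CommRing R] [IsDomain R] [UniqueFactorizationMonoid R] {t : Fin 2 → R}
    {r : Finset (Fin 2)} (ht : ∀ i, Irreducible (t i)) (A : R) : A ≠ 0 →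
    (∀ p, Prime p → p ∣ A → p ∣ ∏ i ∈ r, t i) →
    ∃ (a : Fin 2 → ℕ) (ε : R), IsUnit ε ∧ (∀ i ∉ r, a i = 0) ∧ A = ε * ∏ i, t i ^ a i := by
  induction A using UniqueFactorizationMonoid.induction_on_prime with
  | h₁ => exact fun h => absurd rfl h
  | h₂ x hx => exact fun _ _ => ⟨0, x, hx, fun _ _ => rfl, by simp⟩
  | h₃ x p hx hp ih =>
    intro _ H
    obtain ⟨a, ε, h1, h2, h3⟩ := ih hx fun q hq hd => H q hq (hd.mul_left p)
    obtain ⟨i, hi, hd⟩ := (hp.dvd_finsetProd_iff _).1 (H p hp (dvd_mul_right p x))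
    obtain ⟨v, hv⟩ := (hp.irreducible.associated_of_dvd (ht i) hd).symm
    refine ⟨a + Pi.single i 1, ε * v, h1.mul v.isUnit, fun k hk => ?_, ?_⟩
    · rw [Pi.add_apply, h2 k hk, Pi.single_eq_of_ne (ne_of_mem_of_not_mem hi hk).symm,
        add_zero]
    · have e : ∏ k, t k ^ (Pi.single i 1 : Fin 2 → ℕ) k = t i := by
        rw [Finset.prod_eq_single i (fun k _ hk => by rw [Pi.single_eq_of_ne hk, pow_zero])
          (by simp), Pi.single_eq_same, pow_one]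
      simp only [Pi.add_apply, pow_add, Finset.prod_mul_distrib]
      rw [e, h3, ← hv]
      ring

variable {K : Type} [Field K] [Algebra ℂ K] {n : ℕ} {W : Set (PS n)} {z : Fin n → K} {x : PS n}

lemma irr {O : Subalgebra ℂ K} [IsLocalRing O] {s t : O} (h : Par O s t)
    (hp : ∀ p : O, Prime p → Ideal.span {p} ≠ IsLocalRing.maximalIdeal O) : Irreducible s := by
  obtain ⟨-, -, -, t0, s1, t1, H⟩ := h
  have H' : ∀ f : O, ¬ IsUnit f → ∃ a b : O, f = a * s + b * t := fun f hf => by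
    obtain ⟨a, ha, b, hb, e⟩ := (H f f.2).resolve_left fun q => hf ((ut_iff f).2 q)
    exact ⟨⟨a, ha⟩, ⟨b, hb⟩, Subtype.ext e⟩
  refine ⟨fun q => s1 ((ut_iff s).1 q).2.2, fun a b e => by_contra fun q => ?_⟩
  rw [not_or] at q
  obtain ⟨a0, a1, e1⟩ := H' a q.1
  have u : IsUnit (1 - b * a0) := IsLocalRing.isUnit_one_sub_self_of_mem_nonunits _
    (mul_mem_nonunits_left q.2)
  have d : t ∣ s := u.dvd_mul_right.1 ⟨b * a1, by linear_combination e + b * e1⟩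
  have m : Ideal.span {t} = IsLocalRing.maximalIdeal O := by
    refine le_antisymm ((Ideal.span_singleton_le_iff_mem _).2
      fun q => t1 ((ut_iff t).1 q).2.2) fun f hf => ?_
    obtain ⟨c0, c1, e2⟩ := H' f hf
    rw [Ideal.mem_span_singleton, e2]
    exact dvd_add (d.mul_left _) (dvd_mul_left _ _)
  have t0' : t ≠ 0 := fun q => t0 (congrArg Subtype.val q)
  exact hp t ((Ideal.span_singleton_prime t0').1 (m ▸ inferInstance)) m

lemma fr {F G : PR n} {d : ℕ} (hF : F.IsHomogeneous d) (hG : G.IsHomogeneous d)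
    (h : eval x.rep G ≠ 0) : aeval z F / aeval z G ∈ locRing z x :=
  Algebra.subset_adjoin ⟨F, G, d, hF, hG, h, rfl⟩

lemma phi (o : On z x.rep) : ∃ (φ : PR n →ₐ[ℂ] locRing z x) (j : Fin n) (c : K), c ≠ 0 ∧
    φ (X j) = 1 ∧ (∀ (F : PR n) (d : ℕ), F.IsHomogeneous d → (φ F : K) = c ^ d * aeval z F) ∧
    ∀ (F : PR n) (d : ℕ), F.IsHomogeneous d → eval x.rep F ≠ 0 → IsUnit (φ F) := by
  obtain ⟨j, hj⟩ := Function.ne_iff.1 x.rep_nonzero
  replace hj : x.rep j ≠ 0 := hj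
  have zj : z j ≠ 0 := fun h => hj (by simpa using o (X j) 1 (isHomogeneous_X _ _) (by simpa))
  have hw : ∀ c, z c / z j ∈ locRing z x := fun c => by
    simpa using fr (z := z) (x := x) (isHomogeneous_X ℂ c) (isHomogeneous_X ℂ j) (by simpa)
  let w : Fin n → locRing z x := fun c => ⟨z c / z j, hw c⟩
  have ew : ∀ (F : PR n) (d : ℕ), F.IsHomogeneous d →
      ((aeval w F : locRing z x) : K) = (z j)⁻¹ ^ d * aeval z F := fun F d hF => by
    have e : ((aeval w F : locRing z x) : K) = aeval (fun c => z c / z j) F :=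
      comp_aeval_apply _ (locRing z x).val F
    rw [e, ← aeval_scale hF]
    simp only [div_eq_inv_mul]
  refine ⟨aeval w, j, (z j)⁻¹, inv_ne_zero zj, Subtype.ext (by simp [w, zj]), ew,
    fun F d hF h0 => (ut_iff _).2 ⟨?_, Subtype.prop _, ?_⟩⟩
  · rw [ew F d hF]
    exact mul_ne_zero (pow_ne_zero _ (inv_ne_zero zj)) fun q => h0 (o F d hF q)
  · have := fr (z := z) (isHomogeneous_X_pow j d) hF h0
    rwa [ew F d hF, mul_inv, inv_pow, inv_inv, ← div_eq_mul_inv, ← aeval_X (R := ℂ) z j,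
      ← map_pow]

lemma point (hW : IsZClosed W) (hz : GenPt W z) (hx : x ∈ W) (P : Ideal (locRing z x))
    (hP : P.IsPrime) (T : locRing z x) (hT : T ∉ P) {g : PR n} {d : ℕ} (hg : g.IsHomogeneous d)
    (g0 : eval x.rep g ≠ 0) : ∃ y ∈ W, eval y.rep g ≠ 0 ∧ (T : K)⁻¹ ∈ locRing z y ∧
      ∀ f, Ut (locRing z y) f → ∃ F G : locRing z x, F ∉ P ∧ G ∉ P ∧ f * G = F := by
  have o := on_rep hz (sub_zcl hx)
  obtain ⟨φ, j, c, c0, p1, p2, p3⟩ := phi o
  obtain ⟨A, B, e, hA, hB, B0, eT⟩ := (loc_iff o _).1 T.2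
  have B1 : aeval z B ≠ 0 := fun q => B0 (o B e hB q)
  have eA : φ A = T * φ B := Subtype.ext (by
    rw [Subalgebra.coe_mul, p2 A e hA, p2 B e hB, eT]
    field_simp)
  have nu : ∀ v : locRing z x, IsUnit v → v ∉ P := fun v hv q =>
    hP.ne_top (Ideal.eq_top_of_isUnit_mem _ q hv)
  have : (P.comap φ).IsPrime := Ideal.comap_isPrime φ P
  obtain ⟨y, y1, y2⟩ := point_of_prime (P.comap φ) (i0 := j)
    (by rw [Ideal.mem_comap, map_sub, p1, map_one, sub_self]; exact zero_mem _) (hg.mul hA) (by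
      rw [Ideal.mem_comap, map_mul, eA]
      exact fun q => (hP.mem_or_mem q).elim (nu _ (p3 g d hg g0))
        fun q => (hP.mem_or_mem q).elim hT (nu _ (p3 B e hB B0)))
  have oy : On z y.rep := fun F k hF q => y2 F k hF (by
    rw [Ideal.mem_comap, show φ F = 0 from Subtype.ext (by rw [p2 F k hF, q, mul_zero]; rfl)]
    exact zero_mem _)
  rw [map_mul] at y1
  refine ⟨y, ?_, left_ne_zero_of_mul y1, ?_, fun f hf => ?_⟩
  · obtain ⟨S, hS, rfl⟩ := hW
    intro F hF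
    obtain ⟨k, hk⟩ := hS F hF
    exact oy F k hk ((hz.1 F k hk).2 fun Q hQ => hQ F hF)
  · rw [eT, inv_div]
    exact fr hB hA (right_ne_zero_of_mul y1)
  · obtain ⟨⟨F, G, k, hF, hG, G0, rfl⟩, v0⟩ := (ut_loc oy).1 hf
    rw [vl_eq oy hF hG G0] at v0
    have G1 : aeval z G ≠ 0 := fun q => G0 (oy G k hG q)
    refine ⟨φ F, φ G, fun q => v0 (by rw [y2 F k hF q, zero_div]), fun q => G0 (y2 G k hG q), ?_⟩
    rw [p2 F k hF, p2 G k hG]
    field_simp

/-- `P` holds near `x`. -/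
def Nr (W : Set (PS n)) (x : PS n) (P : PS n → Prop) : Prop :=
  ∃ (g : PR n) (d : ℕ), g.IsHomogeneous d ∧ eval x.rep g ≠ 0 ∧ ∀ y ∈ W, eval y.rep g ≠ 0 → P y

lemma Nr.all {ι : Type} [Fintype ι] {P : ι → PS n → Prop} (h : ∀ i, Nr W x (P i)) :
    Nr W x fun y => ∀ i, P i y := by
  choose g d h1 h2 h3 using h
  refine ⟨∏ i, g i, ∑ i, d i, IsHomogeneous.prod _ _ _ fun i _ => h1 i, ?_, fun y hy q i => ?_⟩
  · rw [map_prod]
    exact Finset.prod_ne_zero_iff.2 fun i _ => h2 i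
  · rw [map_prod] at q
    exact h3 i y hy (Finset.prod_ne_zero_iff.1 q i (Finset.mem_univ i))

lemma Nr.and {P Q : PS n → Prop} (h : Nr W x P) (h' : Nr W x Q) : Nr W x fun y => P y ∧ Q y := by
  obtain ⟨g, d, h1, h2, h3⟩ := h
  obtain ⟨g', d', k1, k2, k3⟩ := h'
  refine ⟨g * g', d + d', h1.mul k1, by rw [map_mul]; exact mul_ne_zero h2 k2, fun y hy q => ?_⟩
  rw [map_mul] at q
  exact ⟨h3 y hy (left_ne_zero_of_mul q), k3 y hy (right_ne_zero_of_mul q)⟩

lemma nr_mem (o : On z x.rep) {f : K} (hf : f ∈ locRing z x) :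
    Nr W x fun y => f ∈ locRing z y := by
  obtain ⟨F, G, d, hF, hG, h0, rfl⟩ := (loc_iff o _).1 hf
  exact ⟨G, d, hG, h0, fun y _ q => fr hF hG q⟩

lemma nr_par (hz : GenPt W z) (hx : x ∈ W) {s t : K} (h : Par (locRing z x) s t) :
    Nr W x fun y => s ∈ locRing z y ∧ t ∈ locRing z y ∧
      (y ≠ x → Ut (locRing z y) s ∨ Ut (locRing z y) t) := by
  have o := on_rep hz (sub_zcl hx)
  obtain ⟨j, hj⟩ := Function.ne_iff.1 x.rep_nonzero
  replace hj : x.rep j ≠ 0 := hj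
  have hw : ∀ y ∈ W, y.rep j ≠ 0 → ∀ c,
      Reg z y.rep (z c / z j + algebraMap ℂ K (-(x.rep c / x.rep j))) ∧
      vl z (z c / z j + algebraMap ℂ K (-(x.rep c / x.rep j))) y.rep =
        y.rep c / y.rep j - x.rep c / x.rep j := fun y hy yj c => by
    have oy := on_rep hz (sub_zcl hy)
    have a1 : Reg z y.rep (z c / z j) :=
      ⟨X c, X j, 1, isHomogeneous_X _ _, isHomogeneous_X _ _, by simpa, by simp⟩
    have a2 : vl z (z c / z j) y.rep = y.rep c / y.rep j := by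
      simpa using vl_eq oy (isHomogeneous_X ℂ c) (isHomogeneous_X ℂ j) (by simpa)
    have a3 := vl_add oy a1 (vl_const oy (-(x.rep c / x.rep j))).1
    rw [a2, (vl_const oy _).2, ← sub_eq_add_neg (y.rep c / y.rep j)] at a3
    exact a3
  have hc : ∀ c, ∃ a ∈ locRing z x, ∃ b ∈ locRing z x,
      z c / z j + algebraMap ℂ K (-(x.rep c / x.rep j)) = a * s + b * t := fun c =>
    (h.2.2.2.2.2.2 _ ((loc_iff o _).2 (hw x hx hj c).1)).resolve_left fun q =>
      ((ut_loc o).1 q).2 (by rw [(hw x hx hj c).2, sub_self])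
  choose a ha b hb e using hc
  have n0 : Nr W x fun y => y.rep j ≠ 0 :=
    ⟨X j, 1, isHomogeneous_X _ _, by simpa, fun y _ q => by simpa using q⟩
  obtain ⟨g, d, g1, g2, g3⟩ := (((nr_mem o h.1).and (nr_mem o h.2.1)).and n0).and
    (Nr.all fun c => (nr_mem (W := W) o (ha c)).and (nr_mem o (hb c)))
  refine ⟨g, d, g1, g2, fun y hy q => ?_⟩
  obtain ⟨⟨⟨k1, k2⟩, k3⟩, k4⟩ := g3 y hy q
  refine ⟨k1, k2, fun ne => by_contra fun q => ne ?_⟩
  have oy := on_rep hz (sub_zcl hy)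
  have r1 := (loc_iff oy _).1 k1
  have r2 := (loc_iff oy _).1 k2
  have v1 : vl z s y.rep = 0 := by_contra fun v => q (Or.inl ((ut_loc oy).2 ⟨r1, v⟩))
  have v2 : vl z t y.rep = 0 := by_contra fun v => q (Or.inr ((ut_loc oy).2 ⟨r2, v⟩))
  rw [← y.mk_rep, ← x.mk_rep, Projectivization.mk_eq_mk_iff']
  refine ⟨y.rep j / x.rep j, funext fun c => ?_⟩
  have m1 := vl_mul oy ((loc_iff oy _).1 (k4 c).1) r1
  have m2 := vl_mul oy ((loc_iff oy _).1 (k4 c).2) r2
  have m3 := (hw y hy k3 c).2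
  rw [e c, (vl_add oy m1.1 m2.1).2, m1.2, m2.2, v1, v2, mul_zero, mul_zero, add_zero, eq_comm,
    sub_eq_zero, div_eq_iff k3] at m3
  rw [Pi.smul_apply, smul_eq_mul, m3]
  ring

lemma zp {O : Subalgebra ℂ K} {s : K} (h : s ∈ O) {a : ℤ} (ha : 0 ≤ a) : s ^ a ∈ O := by
  obtain ⟨k, rfl⟩ := Int.eq_ofNat_of_zero_le ha
  rw [zpow_natCast]
  exact pow_mem h k

lemma zp' {O : Subalgebra ℂ K} {s : K} (h : s ∈ O) {a : ℤ} (ha : a ≤ 0) : (s ^ a)⁻¹ ∈ O := by
  rw [← zpow_neg]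
  exact zp h (by omega)

lemma det {O : Subalgebra ℂ K} {ε s t : K} (hε : Ut O ε) (hs : s ∈ O) (ht : Ut O t) (a b : ℤ) :
    ε * (s ^ a * t ^ b) ∈ O ∨ (ε * (s ^ a * t ^ b))⁻¹ ∈ O := by
  have h : ∀ b : ℤ, t ^ b ∈ O := fun b => (le_total 0 b).elim (zp ht.2.1) fun q => by
    have := zp ht.2.2 (a := -b) (by omega)
    rwa [inv_zpow', neg_neg] at this
  rcases le_total 0 a with q | q
  · exact Or.inl (mul_mem hε.2.1 (mul_mem (zp hs q) (h b)))
  · rw [mul_inv, mul_inv, ← zpow_neg t]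
    exact Or.inr (mul_mem hε.2.2 (mul_mem (zp' hs q) (h _)))

end MonX

open MonX

theorem mon : MonStmt := by
  intro n n' U W K _ _ z z' π m E h u ld hu x hx t r sn
  obtain ⟨hp, ⟨g, d, g1, g2, g3⟩, -⟩ := sn
  obtain ⟨a1, a2⟩ := rg2 ld x hx
  obtain ⟨-, -, ufd, -, np, -⟩ := MP_f3836a_nt.PK.rReg (locRing z' x) a2
  let T : Fin 2 → locRing z' x := fun i => ⟨t i, (g3 x hx g2).1 i⟩
  have hT : ∀ i, Irreducible (T i) := Fin.forall_fin_two.2
    ⟨irr (t := T 1) hp fun p q => (np p q).1, irr (t := T 0) hp.symm fun p q => (np p q).1⟩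
  obtain ⟨y0, hy0⟩ := gen_ne (gen_open ld)
  have u0 := (hu y0 hy0.1 hy0.2).1
  obtain ⟨φ, -, c, c0, -, p2, -⟩ := phi (on_rep ld.2.1 (sub_zcl hx))
  obtain ⟨F, G, k, hF, hG, G0, eu⟩ := quot ld.2.1 u
  have e1 : u * φ G = φ F := by
    rw [p2 F k hF, p2 G k hG, eu]
    field_simp
  have B0 : (φ G : K) ≠ 0 := by
    rw [p2 G k hG]
    exact mul_ne_zero (pow_ne_zero _ c0) G0
  obtain ⟨B, A, D, cop, eB, eA⟩ := UniqueFactorizationMonoid.exists_reduced_factors (φ G)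
    (fun q => B0 (congrArg Subtype.val q)) (φ F)
  rw [← eB, Subalgebra.coe_mul] at B0
  have e2 : u * B = A := mul_left_cancel₀ (left_ne_zero_of_mul B0) (by
    rw [← Subalgebra.coe_mul, eA, ← e1, ← eB, Subalgebra.coe_mul]
    ring)
  have B1 := right_ne_zero_of_mul B0
  have key : ∀ p : locRing z' x, Prime p → p ∣ A ∨ p ∣ B → p ∣ ∏ i ∈ r, T i := fun p q hd => by
    by_contra nd
    obtain ⟨y, y1, y2, y3, y4⟩ := point ld.1 ld.2.1 hx (Ideal.span {p})
      ((Ideal.span_singleton_prime q.ne_zero).2 q) _ (Ideal.mem_span_singleton.not.2 nd) g1 g2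
    rw [SubmonoidClass.coe_finsetProd] at y3
    obtain ⟨F', G', f1, f2, f3⟩ := y4 u (hu y y1 ((g3 y y1 y2).2.2 y3))
    rw [Ideal.mem_span_singleton] at f1 f2
    have e3 : A * G' = B * F' := Subtype.ext (by
      rw [Subalgebra.coe_mul, Subalgebra.coe_mul, ← e2, ← f3]
      ring)
    refine q.not_isUnit (hd.elim (fun hd => cop ?_ hd) fun hd => cop hd ?_)
    · exact (q.dvd_or_dvd (e3 ▸ hd.mul_right G')).resolve_right f1
    · exact (q.dvd_or_dvd (e3.symm ▸ hd.mul_right F')).resolve_right f2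
  obtain ⟨a, ε, h1, h2, h3⟩ := mono hT A (fun q => mul_ne_zero u0 B1 (by rw [e2, q]; rfl))
    fun p q hd => key p q (Or.inl hd)
  obtain ⟨b, ε', k1, k2, k3⟩ := mono hT B (fun q => B1 (congrArg Subtype.val q))
    fun p q hd => key p q (Or.inr hd)
  have t0 : t 0 ≠ 0 := hp.2.2.1
  have t1 : t 1 ≠ 0 := hp.2.2.2.1
  have k4 := (ut_iff _).1 k1
  refine ⟨fun i => a i - b i, ε * (ε' : K)⁻¹, ((ut_iff _).1 h1).mul k4.inv, fun i hi => ?_, ?_⟩
  · simp [h2 i hi, k2 i hi]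
  · have h4 : (A : K) = ε * (t 0 ^ a 0 * t 1 ^ a 1) := by
      rw [h3, Fin.prod_univ_two]; rfl
    have k5 : (B : K) = ε' * (t 0 ^ b 0 * t 1 ^ b 1) := by
      rw [k3, Fin.prod_univ_two]; rfl
    have k6 := k4.1
    rw [eq_div_of_mul_eq B1 e2, h4, k5, zpow_sub₀ t0, zpow_sub₀ t1]
    simp only [zpow_natCast]
    field_simp

theorem finB (h : MonStmt) : FinStmt := by
  intro n n' U W K _ _ z z' π m E f u ld hu
  constructor
  · have H : ∀ x ∈ W, Nr W x fun y => y ≠ x → Det z' u y := fun x hx => by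
      obtain ⟨t, r, sn⟩ := sn_of ld hx
      obtain ⟨a, ε, h1, -, h3⟩ := h n n' U W K z z' π m E f u ld hu x hx t r sn
      have o := on_rep ld.2.1 (sub_zcl hx)
      obtain ⟨g, d, g1, g2, g3⟩ :=
        ((nr_mem o h1.2.1).and (nr_mem o h1.2.2)).and (nr_par ld.2.1 hx sn.1)
      refine ⟨g, d, g1, g2, fun y hy q ne => ?_⟩
      obtain ⟨⟨k1, k2⟩, k3, k4, k5⟩ := g3 y hy q
      rcases k5 ne with k | k
      · rw [h3, mul_comm (t 0 ^ a 0)]
        exact det ⟨h1.1, k1, k2⟩ k4 k _ _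
      · rw [h3]
        exact det ⟨h1.1, k1, k2⟩ k3 k _ _
    choose! g d g1 g2 g3 using H
    classical
    obtain ⟨s, s1, s2⟩ := (Submodule.fg_span_iff_fg_span_finset_subset (R := PR n') (g '' W)).1
      (IsNoetherian.noetherian _)
    obtain ⟨S, S1, rfl⟩ := Finset.subset_set_image_iff.1 s1
    refine S.finite_toSet.subset fun y hy => by_contra fun q => g2 y hy.1 ?_
    have le : Submodule.span (PR n') (g '' W) ≤ RingHom.ker (eval y.rep) := by
      rw [s2, Submodule.span_le]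
      intro k hk
      obtain ⟨x, hx, rfl⟩ := Finset.mem_image.1 hk
      exact by_contra fun k0 => hy.2 (g3 x (S1 hx) y hy.1 k0 fun e => q (e ▸ hx))
    exact le (Submodule.subset_span ⟨y, hy.1, rfl⟩)
  · intro x hx
    obtain ⟨t, r, sn⟩ := sn_of ld hx
    obtain ⟨a, ε, h1, h2, h3⟩ := h n n' U W K z z' π m E f u ld hu x hx t r sn
    obtain ⟨m0, m1, t0, t1, -⟩ := sn.1
    by_cases p : 0 ≤ a 0 ∧ 0 ≤ a 1
    · exact Or.inl (Or.inl (h3 ▸ mul_mem h1.2.1 (mul_mem (zp m0 p.1) (zp m1 p.2))))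
    by_cases q : a 0 ≤ 0 ∧ a 1 ≤ 0
    · refine Or.inl (Or.inr ?_)
      rw [h3, mul_inv, mul_inv]
      exact mul_mem h1.2.2 (mul_mem (zp' m0 q.1) (zp' m1 q.2))
    have hr : r = Finset.univ := Finset.eq_univ_of_forall (Fin.forall_fin_two.2
      ⟨by_contra fun k => by have := h2 0 k; omega, by_contra fun k => by have := h2 1 k; omega⟩)
    subst hr
    right
    rcases lt_or_ge 0 (a 0) with k | k
    · obtain ⟨i, hi⟩ := Int.eq_ofNat_of_zero_le k.le
      obtain ⟨j, hj⟩ := Int.eq_ofNat_of_zero_le (show 0 ≤ -a 1 by omega)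
      refine ⟨i + j, t, sn, i, j, ε, h1, le_rfl, ?_⟩
      rw [h3, hi, ← neg_neg (a 1), hj, zpow_neg, zpow_natCast, zpow_natCast]
      field_simp
    · obtain ⟨i, hi⟩ := Int.eq_ofNat_of_zero_le (show 0 ≤ a 1 by omega)
      obtain ⟨j, hj⟩ := Int.eq_ofNat_of_zero_le (show 0 ≤ -a 0 by omega)
      obtain ⟨s1, ⟨g, d, g1, g2, g3⟩, s3⟩ := sn
      have e : ∏ l, (![t 1, t 0] : Fin 2 → K) l = ∏ l, t l := by
        rw [Fin.prod_univ_two, Fin.prod_univ_two, mul_comm]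
        rfl
      refine ⟨i + j, ![t 1, t 0], ⟨s1.symm, ⟨g, d, g1, g2, fun y hy y0 => ⟨Fin.forall_fin_two.2
        ⟨(g3 y hy y0).1 1, (g3 y hy y0).1 0⟩, e ▸ (g3 y hy y0).2⟩⟩, e ▸ s3⟩, i, j, ε, h1,
        le_rfl, ?_⟩
      show u * t 0 ^ j = ε * t 1 ^ i
      rw [h3, hi, ← neg_neg (a 0), hj, zpow_neg, zpow_natCast, zpow_natCast]
      field_simp

end Pool.Agent.MP_c69980_ag.I4B
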