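import Pool.Agent.MP_c69980_ag.I4B.Base

/-!
The blow-up of a node is again a model.
-/

set_option autoImplicit false

noncomputable section

namespace Pool.Agent.MP_c69980_ag.I4B

open MvPolynomial Set
open H60 H4 E1 I4

namespace TrX

variable {K : Type} [Field K] [Algebra ℂ K] {n n' n'' : ℕ} {U : Set (PS n)} {W : Set (PS n')}
  {W' : Set (PS n'')} {z : Fin n → K} {z' : Fin n' → K} {z'' : Fin n'' → K} {π : PS n' → PS n}
  {ρ : PS n'' → PS n'} {m : ℕ} {E : Fin 2 → Derivation ℂ K K} {h : Fin 3 → K} {x : PS n'}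
  {y : PS n''} {P Q : PS n'' → Prop}

/-- `P` holds near `y`. -/
def Nb (W' : Set (PS n'')) (y : PS n'') (P : PS n'' → Prop) : Prop :=
  ∃ (g : PR n'') (d : ℕ), g.IsHomogeneous d ∧ eval y.rep g ≠ 0 ∧
    ∀ y' ∈ W', eval y'.rep g ≠ 0 → P y'

lemma Nb.mono (a : Nb W' y P) (b : ∀ y' ∈ W', P y' → Q y') : Nb W' y Q :=
  let ⟨g, d, h1, h2, h3⟩ := a
  ⟨g, d, h1, h2, fun y' q r => b y' q (h3 y' q r)⟩

lemma Nb.and (a : Nb W' y P) (b : Nb W' y Q) : Nb W' y fun y' => P y' ∧ Q y' := by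
  obtain ⟨g, d, h1, h2, h3⟩ := a
  obtain ⟨g', d', k1, k2, k3⟩ := b
  refine ⟨g * g', d + d', h1.mul k1, by rw [map_mul]; exact mul_ne_zero h2 k2, fun y' q r => ?_⟩
  rw [map_mul] at r
  exact ⟨h3 y' q (left_ne_zero_of_mul r), k3 y' q (right_ne_zero_of_mul r)⟩

lemma nb_all {k : ℕ} {R : Fin k → PS n'' → Prop} (a : ∀ i, Nb W' y (R i)) :
    Nb W' y fun y' => ∀ i, R i y' := by
  induction k with
  | zero => exact ⟨1, 0, isHomogeneous_one _ _, by simp, fun _ _ _ i => i.elim0⟩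
  | succ k ih => exact ((a 0).and (ih fun i => a i.succ)).mono fun _ _ q => Fin.forall_fin_succ.2 q

lemma nb_mem (hz : GenPt W' z'') (hy : y ∈ W') {f : K} (hf : f ∈ locRing z'' y) :
    Nb W' y fun y' => f ∈ locRing z'' y' := by
  obtain ⟨F, G, d, h1, h2, h3, e⟩ := (loc_iff (on_rep hz (sub_zcl hy)) f).1 hf
  exact ⟨G, d, h2, h3, fun y' _ r => Algebra.subset_adjoin ⟨F, G, d, h1, h2, r, e⟩⟩

lemma dm (hz : GenPt W z') (M : Md W z' x W' z'' ρ) (hy : y ∈ W') {u : K}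
    (hu : u ∈ locRing z' (ρ y)) :
    u ∈ locRing z'' y ∧ (u⁻¹ ∈ locRing z'' y ↔ u⁻¹ ∈ locRing z' (ρ y)) := by
  obtain ⟨h1, h2⟩ := M.dm y hy
  have o := on_rep hz (sub_zcl h1)
  have o' := on_rep M.gen (sub_zcl hy)
  have a := (loc_iff o u).1 hu
  refine ⟨(loc_iff o' u).2 (h2 u a).1, ?_⟩
  by_cases u0 : u = 0
  · simp [u0]
  rw [loc_iff o, loc_iff o', inv_iff o a u0, inv_iff o' (h2 u a).1 u0, (h2 u a).2]

lemma nb_pull (hz : GenPt W z') (M : Md W z' x W' z'' ρ) (hy : y ∈ W') {g : PR n'} {d : ℕ}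
    (hg : g.IsHomogeneous d) (g0 : eval (ρ y).rep g ≠ 0) :
    Nb W' y fun y' => eval (ρ y').rep g ≠ 0 := by
  have o := on_rep hz (sub_zcl (M.dm y hy).1)
  obtain ⟨j, hj⟩ := Function.ne_iff.1 (ρ y).rep_nonzero
  replace hj : (ρ y).rep j ≠ 0 := hj
  have zj : z' j ≠ 0 := fun h => hj (by simpa using o (X j) 1 (isHomogeneous_X _ _) (by simpa))
  have h1 : ∀ i, z' i / z' j ∈ locRing z' (ρ y) := fun i => Algebra.subset_adjoin
    ⟨X i, X j, 1, isHomogeneous_X _ _, isHomogeneous_X _ _, by simpa, by simp⟩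
  have h2 : (aeval z' g / z' j ^ d)⁻¹ ∈ locRing z' (ρ y) := Algebra.subset_adjoin
    ⟨X j ^ d, g, d, isHomogeneous_X_pow j d, hg, g0, by simp⟩
  refine ((nb_all fun i => nb_mem M.gen hy (dm hz M hy (h1 i)).1).and
    (nb_mem M.gen hy (dm hz M hy h2).1)).mono fun y' q r => ?_
  exact eval_ne_of_dom (on_rep hz (sub_zcl (M.dm y' q).1)) _ (fun u hu => (dm hz M q hu).2.1) hg
    (fun e => g0 (o g d hg e)) zj r.1 r.2

lemma nb_sn (hz : GenPt W z') (M : Md W z' x W' z'' ρ) (hy : y ∈ W') {t : Fin 2 → K}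
    {r : Finset (Fin 2)} (S : Sn U W z' π m E h (ρ y) t r) : Nb W' y fun y' =>
      (∀ i, t i ∈ locRing z'' y') ∧ (π (ρ y') ∈ U ↔ (∏ i ∈ r, t i)⁻¹ ∈ locRing z'' y') := by
  obtain ⟨-, ⟨g, d, h1, h2, h3⟩, -⟩ := S
  refine (nb_pull hz M hy h1 h2).mono fun y' q e => ?_
  obtain ⟨a, b⟩ := h3 _ (M.dm y' q).1 e
  exact ⟨fun i => (dm hz M q (a i)).1, b.trans (dm hz M q (prod_mem fun i _ => a i)).2.symm⟩

lemma wd (s : Fin 2 → K) :
    Matrix.det (Matrix.of fun i l => E i (s l)) = E 0 (s 0) * E 1 (s 1) - E 0 (s 1) * E 1 (s 0) := by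
  simp [Matrix.det_fin_two]

lemma core (ld : LDat U z W z' π m E h) (M : Md W z' x W' z'' ρ) (hy : y ∈ W') {t s : Fin 2 → K}
    {r : Finset (Fin 2)} (S : Sn U W z' π m E h (ρ y) t Finset.univ)
    (hs : Par (locRing z'' y) (s 0) (s 1)) {u v b : K} (hu : u ∈ locRing z'' y)
    (hv : v ∈ locRing z'' y) (hb : b ∈ locRing z'' y) (e1 : t 0 * t 1 = u * ∏ i ∈ r, s i)
    (e2 : (∏ i ∈ r, s i) ^ 2 = v * (t 0 * t 1))
    (e3 : (E 0 (t 0) * E 1 (t 1) - E 0 (t 1) * E 1 (t 0)) * ∏ i ∈ r, s i =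
      t 0 * t 1 * (b * (E 0 (s 0) * E 1 (s 1) - E 0 (s 1) * E 1 (s 0)))) :
    Sn U W' z'' (π ∘ ρ) m E h y s r := by
  have hs' : ∀ i, s i ∈ locRing z'' y := Fin.forall_fin_two.2 ⟨hs.1, hs.2.1⟩
  have t0 : t 0 * t 1 ≠ 0 := mul_ne_zero S.1.2.2.1 S.1.2.2.2.1
  have p0 : ∏ i ∈ r, s i ≠ 0 := right_ne_zero_of_mul (e1 ▸ t0)
  refine ⟨hs, ((nb_sn ld.2.1 M hy S).and ((nb_all fun i => nb_mem M.gen hy (hs' i)).and
    ((nb_mem M.gen hy hu).and (nb_mem M.gen hy hv)))).mono fun y' _ q => ⟨q.2.1, q.1.2.trans ?_⟩,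
    fun i => ?_⟩
  · rw [Fin.prod_univ_two]
    refine ⟨fun a => ?_, fun a => ?_⟩
    · have := mul_mem q.2.2.1 a
      rwa [show u * (t 0 * t 1)⁻¹ = (∏ i ∈ r, s i)⁻¹ by
        rw [← div_eq_mul_inv, ← one_div, div_eq_div_iff t0 p0, one_mul, e1]] at this
    · have := mul_mem q.2.2.2 (pow_mem a 2)
      rwa [show v * (∏ i ∈ r, s i)⁻¹ ^ 2 = (t 0 * t 1)⁻¹ by
        rw [inv_pow, ← div_eq_mul_inv, ← one_div, div_eq_div_iff (pow_ne_zero 2 p0) t0, one_mul,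
          e2]] at this
  · have hx := (M.dm y hy).1
    have ht : ∀ i, t i ∈ locRing z' (ρ y) := Fin.forall_fin_two.2 ⟨S.1.1, S.1.2.1⟩
    have := (ld.2.2.2.2.2.2.2 _ hx).1
    obtain ⟨a, ha, e⟩ := nak ld.2.1 hx E (fun i => ⟨t i, ht i⟩)
      ((par_iff fun i => ⟨t i, ht i⟩).1 S.1).1 _ (S.2.2 i)
    rw [Fin.prod_univ_two, wd] at e
    have e4 : (∏ j ∈ r, s j) ^ m * h i = (a * b ^ m) *
        ∏ _k : Fin m, Matrix.det (Matrix.of fun i l => E i (s l)) := by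
      rw [Finset.prod_const, Finset.card_univ, Fintype.card_fin, wd]
      refine mul_left_cancel₀ (pow_ne_zero m t0) ?_
      rw [mul_left_comm, e, mul_left_comm, ← mul_pow, mul_comm (∏ j ∈ r, s j), e3,
        mul_pow (t 0 * t 1), mul_pow b]
      ring
    rw [e4]
    exact Submodule.smul_mem _ (⟨_, mul_mem (dm ld.2.1 M hy ha).1 (pow_mem hb m)⟩ :
      locRing z'' y) (Submodule.subset_span ⟨fun _ => s, fun _ => hs', rfl⟩)

lemma dv (D : Derivation ℂ K K) {a : K} (a0 : a ≠ 0) (b : K) :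
    D b = a * D (b / a) + b / a * D a := by
  conv_lhs => rw [← mul_div_cancel₀ b a0, Derivation.leibniz, smul_eq_mul, smul_eq_mul]

end TrX

open TrX in
theorem tr (h : RegStmt) : TrStmt := by
  intro n n' n'' U W W' K _ _ z z' z'' π ρ m E f x t ld _ S M X
  have t0 := S.1.2.2.1
  have t1 := S.1.2.2.2.1
  have A : ∀ y ∈ W', ρ y ≠ x → ∀ t' r, Sn U W z' π m E f (ρ y) t' r →
      Sn U W' z'' (π ∘ ρ) m E f y t' r := fun y hy hn t' r S' => by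
    refine ⟨M.off y hy hn ▸ S'.1, nb_sn ld.2.1 M hy S', fun i => ?_⟩
    have := S'.2.2 i
    unfold pluri at this ⊢
    rwa [M.off y hy hn]
  have B : ∀ y ∈ W', ρ y = x → Par (locRing z'' y) (t 0) (t 1 / t 0) →
      Sn U W' z'' (π ∘ ρ) m E f y ![t 0, t 1 / t 0] Finset.univ := fun y hy e p =>
    core ld M hy (e ▸ S) p p.1 p.2.1 (one_mem _) (by simp [mul_div_cancel₀ _ t0])
      (by simp; field_simp) (by
      rw [dv (E 0) t0 (t 1), dv (E 1) t0 (t 1)]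
      simp only [Fin.prod_univ_two, Matrix.cons_val_zero, Matrix.cons_val_one]
      field_simp
      ring)
  have C : ∀ y ∈ W', ρ y = x → Par (locRing z'' y) (t 1) (t 0 / t 1) →
      Sn U W' z'' (π ∘ ρ) m E f y ![t 0 / t 1, t 1] Finset.univ := fun y hy e p =>
    core ld M hy (e ▸ S) p.symm p.1 p.2.1 (one_mem _) (by simp; field_simp) (by simp; field_simp)
      (by
        rw [dv (E 0) t1 (t 0), dv (E 1) t1 (t 0)]
        simp only [Fin.prod_univ_two, Matrix.cons_val_zero, Matrix.cons_val_one]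
        field_simp
        ring)
  have D : ∀ y ∈ W', ∃ t r, Sn U W' z'' (π ∘ ρ) m E f y t r := fun y hy => by
    by_cases e : ρ y = x
    swap
    · obtain ⟨t', r, S'⟩ := sn_of ld (M.dm y hy).1
      exact ⟨t', r, A y hy e t' r S'⟩
    rcases X.on y hy e with ⟨c, p⟩ | p
    swap
    · exact ⟨_, _, C y hy e p⟩
    by_cases c0 : c = 0
    · exact ⟨_, _, B y hy e (by simpa [c0] using p)⟩
    have o := on_rep M.gen (sub_zcl hy)
    have a1 := (loc_iff o _).1 p.2.1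
    have a2 := vl_add o a1 (vl_const o c).1
    rw [sub_add_cancel, (vl_const o c).2, not_not.1 (mt (inv_iff o a1 p.2.2.2.1).2
      fun q => p.2.2.2.2.2.1 ((loc_iff o _).2 q)), zero_add] at a2
    have a3 := (loc_iff o _).2 ((inv_iff o a2.1 (div_ne_zero t1 t0)).2 (a2.2 ▸ c0))
    refine ⟨![t 0, t 1 / t 0 - algebraMap ℂ K c], {0}, core ld M hy (e ▸ S) p
      (dm ld.2.1 M hy (e ▸ S.1.2.1)).1 a3 a3 (by simp [mul_comm]) (by simp; field_simp) ?_⟩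
    rw [dv (E 0) t0 (t 1), dv (E 1) t0 (t 1)]
    simp only [Finset.prod_singleton, Matrix.cons_val_zero, Matrix.cons_val_one, map_sub,
      Derivation.map_algebraMap, sub_zero]
    field_simp
    ring
  refine ⟨ld_of M.cl M.gen ld.2.2.1 ld.2.2.2.1 ld.2.2.2.2.1 ld.2.2.2.2.2.1 ld.2.2.2.2.2.2.1
    fun y hy => ?_, A, fun y hy e => ⟨B y hy e, C y hy e⟩⟩
  obtain ⟨t', r, S'⟩ := D y hy
  obtain ⟨-, a1, a2, -⟩ := ld.2.2.2.2.2.2.2 _ (M.dm y hy).1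
  exact ⟨h _ W' K z'' M.gen (by simpa using ld.2.2.1) y hy _ _ S'.1, a1, fun u hu =>
    ⟨(dm ld.2.1 M hy (a2 u hu).1).1, fun q => (a2 u hu).2 ((dm ld.2.1 M hy (a2 u hu).1).2.1 q)⟩,
    t', r, S'⟩

end Pool.Agent.MP_c69980_ag.I4B
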