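import Pool.Agent.MP_c69980_ag.I4B.BU
import Pool.Agent.MP_c69980_ag.I4B.Dim
import Pool.Agent.MP_c69980_ag.I4B.BlA
import Pool.Agent.MP_c69980_ag.I4B.BlB
import Pool.Agent.MP_c69980_ag.I4B.Mon
import Pool.Agent.MP_c69980_ag.I4B.Tr
import Pool.Agent.MP_c69980_ag.I4.Fin
import Pool.Agent.MP_c69980_ag.G3S.SpecB

/-!
Surfaces of log-general type with a nonconstant invertible regular function.
-/

set_option autoImplicit false

namespace Pool.Agent.MP_c69980_ag.I4B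

open MvPolynomial H60 H4 E1 I4

theorem buS : BUStmt := bu (bl blA blB) (finB mon) (tr (reg dim))

theorem all4 (hM : E2.G3S.MainStmt) {n : ℕ} {U : Set (PS n)} (hU : IsVar U) {K : Type} [Field K]
    [Algebra ℂ K] {z : Fin n → K} (hz : GenPt U z) (h2 : Algebra.trdeg ℂ K = 2) (h4 : LogGT U z)
    {u : K} (hu : ∀ x ∈ U, u ∈ locRing z x ∧ u⁻¹ ∈ locRing z x)
    (hc : ∀ s : ℂ, u ≠ algebraMap ℂ K s) :
    PseudoKob U ∧ PseudoBrody U ∧ H43.PseudoFin U ∧ PseudoBdd U := by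
  obtain ⟨n', W, z', π, k, m, E, h, ld⟩ := h4
  obtain rfl : k = 2 := Nat.cast_injective (R := Cardinal) (ld.2.2.1.symm.trans h2)
  replace ld : LDat U z W z' π m E h := ld
  have un : ∀ {n' : ℕ} {W : Set (PS n')} {z' : Fin n' → K} {π : PS n' → PS n},
      LDat U z W z' π m E h → ∀ y ∈ W, π y ∈ U → Ut (locRing z' y) u := fun ld y hy q =>
    have k := (ld.2.2.2.2.2.2.2 y hy).2.2.1
    ⟨by simpa using hc 0, (k _ (hu _ q).1).1, (k _ (hu _ q).2).1⟩
  obtain ⟨n'', W', z'', π', ld', dt⟩ := buS n n' U W K z z' π m E h u ld (un ld)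
  obtain ⟨T, e, t1, t2, t3⟩ := hM K n'' ⟨W', _, z'', E, m, h, u, smo_of ld', fun _ q => q.1,
    ld_open ld', hc, dt, fun x q => (un ld' x q.1 q.2).2⟩
  exact I4.fin hU hz ld' t1 t2 t3

end Pool.Agent.MP_c69980_ag.I4B
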