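import Pool.Agent.MP_c69980_ag.I4.Base

/-!
Blowing up the points of indeterminacy of a unit: statements.
-/

set_option autoImplicit false

noncomputable section

namespace Pool.Agent.MP_c69980_ag.I4B

open MvPolynomial Set
open H60 H4 E1 I4

section

variable {K : Type} [Field K] [Algebra ℂ K] {n n' n'' : ℕ}

/-- Units of `O`. -/
def Ut (O : Subalgebra ℂ K) (f : K) : Prop := f ≠ 0 ∧ f ∈ O ∧ f⁻¹ ∈ O

/-- `s` and `t` are nonzero and generate the ideal of non-units of `O`. -/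
def Par (O : Subalgebra ℂ K) (s t : K) : Prop :=
  s ∈ O ∧ t ∈ O ∧ s ≠ 0 ∧ t ≠ 0 ∧ s⁻¹ ∉ O ∧ t⁻¹ ∉ O ∧
    ∀ f ∈ O, Ut O f ∨ ∃ a ∈ O, ∃ b ∈ O, f = a * s + b * t

/-- The local datum of a model at `x`. -/
def Sn (U : Set (PS n)) (W : Set (PS n')) (z' : Fin n' → K) (π : PS n' → PS n) (m : ℕ)
    (E : Fin 2 → Derivation ℂ K K) (h : Fin 3 → K) (x : PS n') (t : Fin 2 → K)
    (r : Finset (Fin 2)) : Prop :=
  Par (locRing z' x) (t 0) (t 1) ∧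
  (∃ (g : PR n') (d : ℕ), g.IsHomogeneous d ∧ eval x.rep g ≠ 0 ∧ ∀ y ∈ W, eval y.rep g ≠ 0 →
    (∀ i, t i ∈ locRing z' y) ∧ (π y ∈ U ↔ (∏ i ∈ r, t i)⁻¹ ∈ locRing z' y)) ∧
  ∀ i, (∏ j ∈ r, t j) ^ m * h i ∈ pluri z' E m x

/-- `u` defines a map to the projective line at `x`. -/
def Det (z' : Fin n' → K) (u : K) (x : PS n') : Prop := u ∈ locRing z' x ∨ u⁻¹ ∈ locRing z' x

/-- `u` is a monomial of weight at most `w` at a node. -/
def Bad (U : Set (PS n)) (W : Set (PS n')) (z' : Fin n' → K) (π : PS n' → PS n) (m : ℕ)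
    (E : Fin 2 → Derivation ℂ K K) (h : Fin 3 → K) (u : K) (x : PS n') (w : ℕ) : Prop :=
  ∃ t : Fin 2 → K, Sn U W z' π m E h x t Finset.univ ∧ ∃ (a b : ℕ) (ε : K),
    Ut (locRing z' x) ε ∧ a + b ≤ w ∧ u * t 1 ^ b = ε * t 0 ^ a

/-- The local rings of `W'` dominate those of `W`. -/
def Dm (W : Set (PS n)) (z : Fin n → K) (W' : Set (PS n')) (z' : Fin n' → K)
    (ρ : PS n' → PS n) : Prop :=
  ∀ y ∈ W', ρ y ∈ W ∧ ∀ u, Reg z (ρ y).rep u → Reg z' y.rep u ∧ vl z' u y.rep = vl z u (ρ y).rep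

/-- A modification of `W` at the point `x`. -/
structure Md (W : Set (PS n)) (z : Fin n → K) (x : PS n) (W' : Set (PS n')) (z' : Fin n' → K)
    (ρ : PS n' → PS n) : Prop where
  cl : IsZClosed W'
  gen : GenPt W' z'
  dm : Dm W z W' z' ρ
  off : ∀ y ∈ W', ρ y ≠ x → locRing z' y = locRing z (ρ y)
  inj : ∀ y ∈ W', ∀ y' ∈ W', ρ y ≠ x → ρ y = ρ y' → y = y'

/-- The points over the centre of the blow-up. -/
structure Ex (x : PS n) (s t : K) (W' : Set (PS n')) (z' : Fin n' → K) (ρ : PS n' → PS n) :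
    Prop where
  on : ∀ y ∈ W', ρ y = x →
    (∃ c : ℂ, Par (locRing z' y) s (t / s - algebraMap ℂ K c)) ∨ Par (locRing z' y) t (s / t)
  u1 : ∀ y ∈ W', ∀ y' ∈ W', ρ y = x → ρ y' = x → Par (locRing z' y) s (t / s) →
    Par (locRing z' y') s (t / s) → y = y'
  u2 : ∀ y ∈ W', ∀ y' ∈ W', ρ y = x → ρ y' = x → Par (locRing z' y) t (s / t) →
    Par (locRing z' y') t (s / t) → y = y'

/-- The generic point of the blow-up, in the Segre embedding. -/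
def bz (x : V n) (j : Fin n) (z : Fin n → K) (k : Fin (n * n)) : K :=
  z (finProdFinEquiv.symm k).1 * aeval z (lf x j (finProdFinEquiv.symm k).2)

/-- The blow-up. -/
def bW (x : V n) (j : Fin n) (z : Fin n → K) : Set (PS (n * n)) := {y | On (bz x j z) y.rep}

end

/-! ### Row Dim -/

def DimStmt : Prop := ∀ (n : ℕ) (W : Set (PS n)) (K : Type) [Field K] [Algebra ℂ K]
  (z : Fin n → K), GenPt W z → Algebra.trdeg ℂ K = 2 → ∀ x ∈ W,
  IsNoetherianRing (locRing z x) ∧ 2 ≤ ringKrullDim (locRing z x)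

def RegStmt : Prop := ∀ (n : ℕ) (W : Set (PS n)) (K : Type) [Field K] [Algebra ℂ K]
  (z : Fin n → K), GenPt W z → Algebra.trdeg ℂ K = 2 → ∀ x ∈ W, ∀ s t,
  Par (locRing z x) s t → IsRegularLocalRing (locRing z x)

/-! ### Rows BlA, BlB: the blow-up of a point -/

def BlAStmt : Prop := ∀ (n : ℕ) (W : Set (PS n)) (K : Type) [Field K] [Algebra ℂ K]
  (z : Fin n → K) (x : PS n) (j : Fin n), IsZClosed W → GenPt W z → x ∈ W → x.rep j ≠ 0 →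
  (∃ c, aeval z (lf x.rep j c) ≠ 0) → ∃ ρ : PS (n * n) → PS n,
    Md W z x (bW x.rep j z) (bz x.rep j z) ρ ∧
    ∀ y ∈ bW x.rep j z, ρ y = x → ∃ c, y.rep (finProdFinEquiv (j, c)) ≠ 0

def BlBStmt : Prop := ∀ (n : ℕ) (W : Set (PS n)) (K : Type) [Field K] [Algebra ℂ K]
  (z : Fin n → K) (x : PS n) (j : Fin n) (s t : K) (ρ : PS (n * n) → PS n), GenPt W z → Rg2 W z →
  x ∈ W → x.rep j ≠ 0 → Par (locRing z x) s t → Md W z x (bW x.rep j z) (bz x.rep j z) ρ →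
  (∀ y ∈ bW x.rep j z, ρ y = x → ∃ c, y.rep (finProdFinEquiv (j, c)) ≠ 0) →
  Ex x s t (bW x.rep j z) (bz x.rep j z) ρ

def BlStmt : Prop := ∀ (n : ℕ) (W : Set (PS n)) (K : Type) [Field K] [Algebra ℂ K]
  (z : Fin n → K) (x : PS n) (s t : K), IsZClosed W → GenPt W z → Rg2 W z → x ∈ W →
  Par (locRing z x) s t → ∃ (n' : ℕ) (W' : Set (PS n')) (z' : Fin n' → K) (ρ : PS n' → PS n),
    Md W z x W' z' ρ ∧ Ex x s t W' z' ρ

/-! ### Rows Mon, Fin: a unit is a monomial along the boundary -/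

def MonStmt : Prop := ∀ (n n' : ℕ) (U : Set (PS n)) (W : Set (PS n')) (K : Type) [Field K]
  [Algebra ℂ K] (z : Fin n → K) (z' : Fin n' → K) (π : PS n' → PS n) (m : ℕ)
  (E : Fin 2 → Derivation ℂ K K) (h : Fin 3 → K) (u : K), LDat U z W z' π m E h →
  (∀ y ∈ W, π y ∈ U → Ut (locRing z' y) u) → ∀ x ∈ W, ∀ t r, Sn U W z' π m E h x t r →
  ∃ (a : Fin 2 → ℤ) (ε : K), Ut (locRing z' x) ε ∧ (∀ i ∉ r, a i = 0) ∧
    u = ε * (t 0 ^ a 0 * t 1 ^ a 1)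

def FinStmt : Prop := ∀ (n n' : ℕ) (U : Set (PS n)) (W : Set (PS n')) (K : Type) [Field K]
  [Algebra ℂ K] (z : Fin n → K) (z' : Fin n' → K) (π : PS n' → PS n) (m : ℕ)
  (E : Fin 2 → Derivation ℂ K K) (h : Fin 3 → K) (u : K), LDat U z W z' π m E h →
  (∀ y ∈ W, π y ∈ U → Ut (locRing z' y) u) →
  {x ∈ W | ¬ Det z' u x}.Finite ∧ ∀ x ∈ W, Det z' u x ∨ ∃ w, Bad U W z' π m E h u x w

/-! ### Row Tr: the blow-up of a node is again a model -/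

def TrStmt : Prop := ∀ (n n' n'' : ℕ) (U : Set (PS n)) (W : Set (PS n')) (W' : Set (PS n''))
  (K : Type) [Field K] [Algebra ℂ K] (z : Fin n → K) (z' : Fin n' → K) (z'' : Fin n'' → K)
  (π : PS n' → PS n) (ρ : PS n'' → PS n') (m : ℕ) (E : Fin 2 → Derivation ℂ K K) (h : Fin 3 → K)
  (x : PS n') (t : Fin 2 → K), LDat U z W z' π m E h → x ∈ W →
  Sn U W z' π m E h x t Finset.univ → Md W z' x W' z'' ρ → Ex x (t 0) (t 1) W' z'' ρ →
  LDat U z W' z'' (π ∘ ρ) m E h ∧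
  (∀ y ∈ W', ρ y ≠ x → ∀ t' r, Sn U W z' π m E h (ρ y) t' r → Sn U W' z'' (π ∘ ρ) m E h y t' r) ∧
  ∀ y ∈ W', ρ y = x → (Par (locRing z'' y) (t 0) (t 1 / t 0) →
    Sn U W' z'' (π ∘ ρ) m E h y ![t 0, t 1 / t 0] Finset.univ) ∧
    (Par (locRing z'' y) (t 1) (t 0 / t 1) →
      Sn U W' z'' (π ∘ ρ) m E h y ![t 0 / t 1, t 1] Finset.univ)

/-- The output of the block. -/
def BUStmt : Prop := ∀ (n n' : ℕ) (U : Set (PS n)) (W : Set (PS n')) (K : Type) [Field K]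
  [Algebra ℂ K] (z : Fin n → K) (z' : Fin n' → K) (π : PS n' → PS n) (m : ℕ)
  (E : Fin 2 → Derivation ℂ K K) (h : Fin 3 → K) (u : K), LDat U z W z' π m E h →
  (∀ y ∈ W, π y ∈ U → Ut (locRing z' y) u) →
  ∃ (n'' : ℕ) (W' : Set (PS n'')) (z'' : Fin n'' → K) (π' : PS n'' → PS n),
    LDat U z W' z'' π' m E h ∧ ∀ x ∈ W', Det z'' u x

end Pool.Agent.MP_c69980_ag.I4B
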